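import Pool.Agent.X266.CD.Cor2

set_option autoImplicit false

/-!
# Heights of the 3x+1 map and the digits in odd bases

Let `q 1, ..., q r` be pairwise coprime odd bases and let `W i` be strongly additive functions of the digits
in base `q i`, for example the sums of the digits. The distribution of the height is the same in all
nondegenerate classes of odd integers given by the residues of the `W i n`, with a power saving which is uniform
over all functions of the height; so the average of `min (h, t)` in the class is asymptotic to the average over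
all odd integers for all truncations `t ≤ X ^ κ`. Moreover each such class is sufficient for the finiteness of all
heights and for upper bounds: a bound `h(n) ≤ ψ(n)` for all elements of one class, with up to `C X ^ (1 - θ)`
exceptions `n ≤ X`, gives `h(n) ≤ ψ(K n ^ K) + K (1 + log n)` for all odd integers.

Method: a dispersion argument. For `2 ^ k ≤ X ^ (1 / 16)` the number of odd terms before `1` of the trajectory of
`n > √X` is a function of `T^k(n)` and the number `a` of odd terms before it. For each `a` the number of the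
fibres of `T^k` times their range is about `X`, so that every power saving, on average over `h`, for the
correlations of the digital functions at `n` and `n + h` in residue classes modulo `2 ^ k` is a saving for the
sum. The sufficiency follows from this with the function `n ↦ [n reaches a]` and a uniform lower bound for the
number of the odd `n` in `(X / 2, X]` which reach `a`.
-/

namespace Pool.Agent.Results.MP_2b866c_nt.DigitClasses

open Filter Topology

/-- `C(m) = (3m+1)/2^e(m)`, `2^e(m)` the largest power of `2` dividing `3m+1` -/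
def C (m : ℕ) : ℕ := (3 * m + 1) / 2 ^ padicValNat 2 (3 * m + 1)

/-- the height `h(m)`, the least `k ≥ 1` with `C^k(m) = 1`, and `⊤ = ∞` if there is none -/
noncomputable def height (m : ℕ) : ℕ∞ := sInf {k : ℕ∞ | ∃ j : ℕ, 1 ≤ j ∧ C^[j] m = 1 ∧ k = j}

/-- the height truncated at `t`, that is `min (h(m), t)` -/
noncomputable def truncated (t : ℝ) (m : ℕ) : ℝ := if height m = ⊤ then t else min ((height m).toNat : ℝ) t

/-- `h(m)` is finite and at most `y` -/
def AtMost (m : ℕ) (y : ℝ) : Prop := ∃ t : ℕ, height m = t ∧ (t : ℝ) ≤ y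

/-- `2 / log (16/9) * log m + x * log 2 * √(2 log m / (log (4/3))^3)` -/
noncomputable def bound (x : ℝ) (m : ℕ) : ℝ :=
  2 / Real.log (16 / 9) * Real.log m
    + x * (Real.log 2 * Real.sqrt (2 * Real.log m / Real.log (4 / 3) ^ 3))

/-- The distribution function of the standard normal law. -/
noncomputable def Phi (x : ℝ) : ℝ :=
  ProbabilityTheory.cdf (ProbabilityTheory.gaussianReal 0 1) x

/-- `m` has a finite height, which is at most `bound x m` and congruent to `b` modulo `q`. -/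
def Level (q : ℕ) (b : ℤ) (x : ℝ) (m : ℕ) : Prop :=
  ∃ h : ℕ, height m = h ∧ (h : ℝ) ≤ bound x m ∧ (h : ℤ) ≡ b [ZMOD q]

/-- `W` is a strongly additive function of the digits in base `q`, for example the sum of the digits. -/
def Additive (q : ℕ) (W : ℕ → ℤ) : Prop := ∀ n r, r < q → W (q * n + r) = W n + W r

/-- The greatest common divisor of `m` and of the numbers `W r - r W 1`, `0 ≤ r ≤ q`. For the sum of the
digits it is the greatest common divisor of `m` and `q - 1`. -/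
def obstruction (q : ℕ) (W : ℕ → ℤ) (m : ℕ) : ℕ :=
  Nat.gcd m ((Finset.range (q + 1)).gcd fun r => (W r - r * W 1).natAbs)

/-- The set of the `n` with `W i n ≡ a i` modulo `m i` for all `i`, and `n ≡ b` modulo `2 M`. -/
def Class {r : ℕ} (m : Fin r → ℕ) (W : Fin r → ℕ → ℤ) (a : Fin r → ℤ) (M : ℕ) (b : ℤ) : Set ℕ :=
  {n | (∀ i, (m i : ℤ) ∣ W i n - a i) ∧ ((2 * M : ℕ) : ℤ) ∣ n - b}

open Classical in
/-- The sum of `φ (h(n))` over the `n ≤ X` in `E`. -/
noncomputable def total (φ : ℕ∞ → ℝ) (E : Set ℕ) (X : ℕ) : ℝ :=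
  ∑ n ∈ (Finset.Icc 1 X).filter (fun n => n ∈ E), φ (height n)

/-- The number of the `n ≤ X` in `E` with the property `P`. -/
noncomputable def count (E : Set ℕ) (P : ℕ → Prop) (X : ℕ) : ℕ := {n : ℕ | 1 ≤ n ∧ n ≤ X ∧ n ∈ E ∧ P n}.ncard

/-- The sum of the heights of the odd `n ≤ X`. -/
noncomputable def heightSum (X : ℕ) : ℕ∞ := ∑ n ∈ (Finset.Icc 1 X).filter (fun n => n % 2 = 1), height n

open Pool.Agent.H499R2.ND in
theorem height_eq {m h : ℕ} (hh : IsHt m h) : height m = h := by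
  unfold height
  apply le_antisymm
  · exact sInf_le ⟨h, hh.1, hh.2.1, rfl⟩
  · refine le_sInf ?_
    rintro k ⟨j, hj, hj1, rfl⟩
    have : h ≤ j := by
      by_contra hlt
      exact hh.2.2 j hj (by omega) hj1
    exact_mod_cast this

open Pool.Agent.H499R2.ND in
theorem exists_isHt {m j : ℕ} (hj : 1 ≤ j) (h : C^[j] m = 1) : ∃ h, IsHt m h := by
  classical
  have hex : ∃ k, 1 ≤ k ∧ C^[k] m = 1 := ⟨j, hj, h⟩
  refine ⟨Nat.find hex, (Nat.find_spec hex).1, (Nat.find_spec hex).2, fun k hk hlt hk1 => ?_⟩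
  exact Nat.find_min hex hlt ⟨hk, hk1⟩

open Pool.Agent.H499R2.ND in
theorem height_top {m : ℕ} (hh : ¬ ∃ h, IsHt m h) : height m = ⊤ := by
  unfold height
  have : {k : ℕ∞ | ∃ j : ℕ, 1 ≤ j ∧ C^[j] m = 1 ∧ k = j} = ∅ := by
    rw [Set.eq_empty_iff_forall_notMem]
    rintro k ⟨j, hj, hj1, _⟩
    exact hh (exists_isHt hj hj1)
  rw [this, sInf_empty]

open Pool.Agent.H499R2.ND in
theorem height_lt_top_iff {m : ℕ} : height m ≠ ⊤ ↔ ∃ h, IsHt m h := by
  constructor
  · intro h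
    by_contra hcon
    exact h (height_top hcon)
  · rintro ⟨h, hh⟩
    rw [height_eq hh]
    exact ENat.natCast_ne_top h

open Pool.Agent.H499R2.ND in
theorem height_iff {m h : ℕ} : height m = h ↔ IsHt m h := by
  constructor
  · intro hm
    obtain ⟨h', hh'⟩ := height_lt_top_iff.1 (show height m ≠ ⊤ by rw [hm]; exact ENat.natCast_ne_top h)
    have h1 := height_eq hh'
    rw [hm] at h1
    have h2 : h = h' := by exact_mod_cast h1
    rw [h2]; exact hh'
  · exact height_eq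

theorem bound_eq (x : ℝ) (m : ℕ) : bound x m = Pool.Agent.H499R2.HL.bo x (Real.log m) := by
  unfold bound Pool.Agent.H499R2.HL.bo
  have : Real.log (16 / 9) = 2 * Real.log (4 / 3) := by
    rw [show (16 : ℝ) / 9 = (4 / 3) ^ 2 by norm_num, Real.log_pow]; push_cast; ring
  rw [this]
  have : Real.log (4 / 3) ≠ 0 := (Real.log_pos (by norm_num)).ne'
  congr 2
  field_simp

open Pool.Agent.H499R2.HL Pool.Agent.Y965.PL Pool.Agent.X266.CD Pool.Agent.Y55.DS
open Pool.Agent.H499R2.LT (odn)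
open Pool.Agent.H499R2.ND (IsHt Tn)

theorem level_iff (q : ℕ) (b : ℤ) (x : ℝ) {m : ℕ} (hm : m % 2 = 1) : Level q b x m ↔
    Lv valH (clsH q b) (th (1 / Real.log (4 / 3)) bO x) m := by
  rw [← lev_ht q b x hm]
  unfold Level
  refine exists_congr fun h => ?_
  rw [height_iff, bound_eq]

theorem height_H {m k : ℕ} (hm : m % 2 = 1) (h : H k m) :
    height m = ((max (odn k m) 1 : ℕ) : ℕ∞) :=
  height_eq ((ht_max hm _).2 ⟨k, h, rfl⟩)

theorem height_not {m : ℕ} (hm : m % 2 = 1) (h : ¬ ∃ k, H k m) : height m = ⊤ :=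
  height_top fun hh => h ((ht_ex hm).1 hh)

theorem atMost_iff {m : ℕ} (hm : m % 2 = 1) {y : ℝ} : AtMost m y ↔ ∃ k, H k m ∧ valH k (odn k m) ≤ y := by
  unfold AtMost valH
  constructor
  · rintro ⟨t, ht, hty⟩
    obtain ⟨k, hk, hkt⟩ := (ht_max hm t).1 (height_iff.1 ht)
    refine ⟨k, hk, ?_⟩
    rw [hkt]; exact hty
  · rintro ⟨k, hk, hky⟩
    exact ⟨_, height_H hm hk, hky⟩

theorem fin_iff {m : ℕ} (hm : m % 2 = 1) : height m ≠ ⊤ ↔ ∃ k, H k m := by
  rw [height_lt_top_iff, ht_ex hm]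

theorem log_eq : 2 / Real.log (16 / 9) = 1 / Real.log (4 / 3) := by
  have : Real.log (16 / 9) = 2 * Real.log (4 / 3) := by
    rw [show (16 : ℝ) / 9 = (4 / 3) ^ 2 by norm_num, Real.log_pow]; push_cast; ring
  rw [this]
  have : Real.log (4 / 3) ≠ 0 := (Real.log_pos (by norm_num)).ne'
  field_simp

theorem phi_Fg (φ : ℕ∞ → ℝ) {n : ℕ} (hn : n % 2 = 1) : φ (height n) = Fg (fun _ o => φ ((max o 1 : ℕ) : ℕ∞)) (φ ⊤) n := by
  by_cases h : ∃ k, H k n
  · obtain ⟨k, hk⟩ := h
    rw [Fg_H hk, height_H hn hk]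
  · rw [Fg_not h, height_not hn h]

theorem count_eq (E : Set ℕ) (P : ℕ → Prop) (X : ℕ) :
    (count E P X : ℝ) = ∑ n ∈ Finset.Icc 1 X, ind (fun n => n ∈ E) n * ind P n := count_sum X (fun n => n ∈ E) P

/-- truncation, for all `n` -/
noncomputable def fT (t : ℝ) (n : ℕ) : ℝ := Fg (fun _ o => min ((max o 1 : ℕ) : ℝ) t) t n

theorem isTr : IsTr valH fT := by
  constructor
  · intro t n k hk
    exact Fg_H hk
  · intro t n hn
    exact Fg_not hn

theorem fT_eq (t : ℝ) {m : ℕ} (hm : m % 2 = 1) : truncated t m = fT t m := by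
  unfold truncated fT
  by_cases h : ∃ k, H k m
  · obtain ⟨k, hk⟩ := h
    rw [height_H hm hk, if_neg (ENat.natCast_ne_top _), ENat.toNat_natCast, Fg_H hk]
  · rw [height_not hm h, if_pos rfl, Fg_not h]

/-- sums over a set of odd integers only depend on the values there -/
theorem sum_odd_congr {E : ℕ → Prop} (hE : ∀ n, E n → n % 2 = 1) {F G : ℕ → ℝ} (h : ∀ n, n % 2 = 1 → F n = G n)
    (X : ℕ) : ∑ n ∈ Finset.Icc 1 X, ind E n * F n = ∑ n ∈ Finset.Icc 1 X, ind E n * G n := by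
  apply Finset.sum_congr rfl
  intro n _
  by_cases hn : E n
  · rw [h n (hE n hn)]
  · rw [ind_neg hn, zero_mul, zero_mul]

theorem one_le_fT {t : ℝ} (ht : 1 ≤ t) (n : ℕ) : 1 ≤ fT t n := by
  unfold fT
  by_cases h : ∃ k, H k n
  · obtain ⟨k, hk⟩ := h
    rw [Fg_H hk]
    refine le_min ?_ ht
    exact_mod_cast le_max_right _ _
  · rw [Fg_not h]; exact ht

/-- the number of the odd integers -/
theorem odd_sum {X : ℕ} (hX : 1 ≤ X) : (X : ℝ) / 2 ≤ ∑ n ∈ Finset.Icc 1 X, ind (fun n => n % 2 = 1) n := by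
  induction X using Nat.strong_induction_on with
  | _ X ih =>
    rcases Nat.lt_or_ge X 3 with h | h
    · interval_cases X
      · simp [ind]
        norm_num
      · rw [Finset.sum_Icc_succ_top (by norm_num), Finset.Icc_self, Finset.sum_singleton]
        rw [ind_pos (P := fun n => n % 2 = 1) (by norm_num), ind_neg (P := fun n => n % 2 = 1) (by norm_num)]
        norm_num
    · obtain ⟨Y, rfl⟩ : ∃ Y, X = Y + 1 + 1 := ⟨X - 2, by omega⟩
      have h1 := ih Y (by omega) (by omega)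
      rw [Finset.sum_Icc_succ_top (by omega), Finset.sum_Icc_succ_top (by omega)]
      have h2 : 1 ≤ ind (fun n => n % 2 = 1) (Y + 1) + ind (fun n => n % 2 = 1) (Y + 1 + 1) := by
        rcases Nat.mod_two_eq_zero_or_one Y with h3 | h3
        · rw [ind_pos (P := fun n => n % 2 = 1) (show (Y + 1) % 2 = 1 by omega)]
          linarith [ind_nonneg (fun n => n % 2 = 1) (Y + 1 + 1)]
        · rw [ind_pos (P := fun n => n % 2 = 1) (show (Y + 1 + 1) % 2 = 1 by omega)]
          linarith [ind_nonneg (fun n => n % 2 = 1) (Y + 1)]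
      push_cast
      linarith

/-- the averages with general truncations -/
theorem avg_ratio {w : ℕ → ℝ} {ρ C c : ℝ} (hC : 0 ≤ C) (hc : 0 < c)
    (hT : ∀ N : ℕ, 1 ≤ N → TrF w (ind (fun n => n % 2 = 1)) ρ (C * (N : ℝ) ^ (1 - c)) N) (t : ℕ → ℝ)
    (ht : ∀ X : ℕ, 1 ≤ X → 1 ≤ t X ∧ t X ≤ (X : ℝ) ^ (c / 2)) :
    Tendsto (fun X : ℕ => (∑ n ∈ Finset.Icc 1 X, w n * fT (t X) n) /
      (∑ n ∈ Finset.Icc 1 X, ind (fun n => n % 2 = 1) n * fT (t X) n)) atTop (𝓝 ρ) := by
  rw [Metric.tendsto_atTop]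
  intro ε hε
  obtain ⟨N1, h1⟩ := ((small_err C (show 0 < c / 2 by positivity) (show 0 < ε / 4 by positivity)).and
    (eventually_ge_atTop 1)).exists_forall_of_atTop
  refine ⟨N1, fun X hX => ?_⟩
  obtain ⟨h2, h3⟩ := h1 X hX
  obtain ⟨ht1, ht2⟩ := ht X h3
  have hXR : (0 : ℝ) < X := by exact_mod_cast h3
  have h4 := (hT X h3).tr (val := valH) (fun _ _ => Nat.cast_nonneg _) isTr (show 0 < t X by linarith)
  unfold Tr at h4
  set SW := ∑ n ∈ Finset.Icc 1 X, w n * fT (t X) n with hSW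
  set SV := ∑ n ∈ Finset.Icc 1 X, ind (fun n => n % 2 = 1) n * fT (t X) n with hSV
  have h5 : (X : ℝ) / 2 ≤ SV := by
    refine (odd_sum h3).trans ?_
    apply Finset.sum_le_sum
    intro n _
    exact le_mul_of_one_le_right (ind_nonneg _ _) (one_le_fT ht1 n)
  have h5' : 0 < SV := by linarith
  rw [Real.dist_eq]
  have e : SW / SV - ρ = (SW - ρ * SV) / SV := by field_simp
  rw [e, abs_div, abs_of_pos h5', div_lt_iff₀ h5']
  have h6 : t X * (C * (X : ℝ) ^ (1 - c)) ≤ C * (X : ℝ) ^ (1 - c / 2) := by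
    have h7 : (X : ℝ) ^ (1 - c / 2) = (X : ℝ) ^ (c / 2) * (X : ℝ) ^ (1 - c) := by
      rw [← Real.rpow_add hXR]; congr 1; ring
    rw [h7]
    have h8 : 0 ≤ C * (X : ℝ) ^ (1 - c) := by positivity
    nlinarith [mul_le_mul_of_nonneg_right ht2 h8]
  have h9 : ε / 4 * X < ε * SV := by nlinarith
  linarith

theorem pow_bound {K κ : ℝ} (hK : 1 ≤ K) : ∃ κ' C' : ℝ, 0 ≤ κ' ∧ 0 ≤ C' ∧ ∀ n : ℕ, 1 ≤ n →
    max (K * (n : ℝ) ^ K) 1 ^ max κ 0 + K * (1 + Real.log n) ≤ C' * (n : ℝ) ^ κ' := by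
  refine ⟨K * max κ 0 + 1, K ^ max κ 0 + 2 * K, by positivity, by positivity, fun n hn => ?_⟩
  have hn1 : (1 : ℝ) ≤ n := by exact_mod_cast hn
  have hn0 : (0 : ℝ) < n := by linarith
  have hp : 1 ≤ (n : ℝ) ^ K := Real.one_le_rpow hn1 (by linarith)
  have h1 : max (K * (n : ℝ) ^ K) 1 = K * (n : ℝ) ^ K := max_eq_left (by nlinarith)
  rw [h1, Real.mul_rpow (by linarith) (by positivity), ← Real.rpow_mul hn0.le]
  have h2 : Real.log n ≤ n := (Real.log_le_sub_one_of_pos hn0).trans (by linarith)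
  have h3 : (n : ℝ) ^ (K * max κ 0) ≤ (n : ℝ) ^ (K * max κ 0 + 1) := Real.rpow_le_rpow_of_exponent_le hn1 (by linarith)
  have h4 : (n : ℝ) ≤ (n : ℝ) ^ (K * max κ 0 + 1) := by
    calc (n : ℝ) = (n : ℝ) ^ (1 : ℝ) := (Real.rpow_one _).symm
      _ ≤ _ := Real.rpow_le_rpow_of_exponent_le hn1 (by
        have : 0 ≤ K * max κ 0 := by positivity
        linarith)
  have h5 : 0 ≤ K ^ max κ 0 := by positivity
  have h6 : K * (1 + Real.log n) ≤ 2 * K * (n : ℝ) ^ (K * max κ 0 + 1) := by nlinarith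
  have h7 := mul_le_mul_of_nonneg_left h3 h5
  linarith

/-- polynomial bounds for the sums of the heights -/
theorem sum_of_bound {κ C : ℝ} (hκ : 0 ≤ κ) (hC : 0 ≤ C) (h : ∀ n : ℕ, 1 ≤ n → n % 2 = 1 → AtMost n (C * (n : ℝ) ^ κ)) :
    ∃ κ C : ℝ, ∀ X : ℕ, 1 ≤ X → ∃ t : ℕ, heightSum X = t ∧ (t : ℝ) ≤ C * (X : ℝ) ^ κ := by
  classical
  refine ⟨κ + 1, C, fun X hX => ?_⟩
  unfold AtMost at h
  choose! t ht using h
  refine ⟨∑ n ∈ (Finset.Icc 1 X).filter (fun n => n % 2 = 1), t n, ?_, ?_⟩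
  · unfold heightSum
    rw [Nat.cast_sum]
    apply Finset.sum_congr rfl
    intro n hn
    rw [Finset.mem_filter, Finset.mem_Icc] at hn
    exact (ht n hn.1.1 hn.2).1
  · rw [Nat.cast_sum]
    have hXR : (0 : ℝ) < X := by exact_mod_cast hX
    have h1 : ∀ n ∈ (Finset.Icc 1 X).filter (fun n => n % 2 = 1), (t n : ℝ) ≤ C * (X : ℝ) ^ κ := by
      intro n hn
      rw [Finset.mem_filter, Finset.mem_Icc] at hn
      refine (ht n hn.1.1 hn.2).2.trans ?_
      apply mul_le_mul_of_nonneg_left _ hC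
      exact Real.rpow_le_rpow (Nat.cast_nonneg _) (by exact_mod_cast hn.1.2) hκ
    refine (Finset.sum_le_card_nsmul _ _ _ h1).trans ?_
    rw [nsmul_eq_mul, Real.rpow_add hXR, Real.rpow_one]
    have h2 : (((Finset.Icc 1 X).filter (fun n => n % 2 = 1)).card : ℝ) ≤ X := by
      have h3 := Finset.card_filter_le (Finset.Icc 1 X) (fun n => n % 2 = 1)
      rw [Nat.card_Icc, Nat.add_sub_cancel] at h3
      exact_mod_cast h3
    have h3 : 0 ≤ C * (X : ℝ) ^ κ := by positivity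
    nlinarith [mul_le_mul_of_nonneg_right h2 h3]

theorem bound_of_sum {κ C : ℝ} (h : ∀ X : ℕ, 1 ≤ X → ∃ t : ℕ, heightSum X = t ∧ (t : ℝ) ≤ C * (X : ℝ) ^ κ) :
    ∃ κ : ℝ, ∀ n : ℕ, 1 ≤ n → n % 2 = 1 → AtMost n ((n : ℝ) ^ κ) := by
  refine ⟨max κ 0 + Real.log (max C 1), fun n hn hn2 => ?_⟩
  obtain ⟨t, ht1, ht2⟩ := h n hn
  have h1 : height n ≤ heightSum n := by
    unfold heightSum
    exact Finset.single_le_sum (f := height) (fun i _ => zero_le) (Finset.mem_filter.2 ⟨Finset.mem_Icc.2 ⟨hn, le_rfl⟩, hn2⟩)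
  rw [ht1] at h1
  obtain ⟨s, hs⟩ := ENat.ne_top_iff_exists.1 (ne_top_of_le_ne_top (ENat.natCast_ne_top t) h1)
  refine ⟨s, hs.symm, ?_⟩
  by_cases hn1 : n = 1
  · subst hn1
    have h2 : H 0 1 := H_one
    have h3 := height_H (m := 1) (by norm_num) h2
    rw [← hs, odn_zero] at h3
    have h4 : s = 1 := by exact_mod_cast h3
    rw [h4]; simp
  · have hn3 : (3 : ℝ) ≤ n := by exact_mod_cast (by omega : 3 ≤ n)
    have hn0 : (0 : ℝ) < n := by linarith
    rw [← hs] at h1
    have h5 : (s : ℝ) ≤ t := by exact_mod_cast h1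
    refine h5.trans (ht2.trans ?_)
    rw [Real.rpow_add hn0]
    have hlog : 1 ≤ Real.log n := by
      rw [Real.le_log_iff_exp_le hn0]
      linarith [Real.exp_one_lt_d9]
    have hM : (1 : ℝ) ≤ max C 1 := le_max_right _ _
    have h6 : max C 1 ≤ (n : ℝ) ^ Real.log (max C 1) := by
      have h7 : (n : ℝ) ^ Real.log (max C 1) = (max C 1) ^ Real.log n := by
        rw [Real.rpow_def_of_pos hn0, Real.rpow_def_of_pos (by linarith), mul_comm]
      rw [h7]
      calc max C 1 = (max C 1) ^ (1 : ℝ) := (Real.rpow_one _).symm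
        _ ≤ _ := Real.rpow_le_rpow_of_exponent_le hM hlog
    have h8 : (n : ℝ) ^ κ ≤ (n : ℝ) ^ max κ 0 := Real.rpow_le_rpow_of_exponent_le (by linarith) (le_max_left _ _)
    calc C * (n : ℝ) ^ κ ≤ max C 1 * (n : ℝ) ^ κ := mul_le_mul_of_nonneg_right (le_max_left _ _) (by positivity)
      _ ≤ (n : ℝ) ^ Real.log (max C 1) * (n : ℝ) ^ max κ 0 := mul_le_mul h6 h8 (by positivity) (by positivity)
      _ = _ := mul_comm _ _

theorem total_eq (φ : ℕ∞ → ℝ) {r : ℕ} (m : Fin r → ℕ) (W : Fin r → ℕ → ℤ) (a : Fin r → ℤ) {M : ℕ} {b : ℤ} (hb : Odd b)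
    (X : ℕ) : total φ (Class m W a M b) X = ∑ n ∈ Finset.Icc 1 X, ind (Cl m W a (2 * M) b) n *
      Fg (fun _ o => φ ((max o 1 : ℕ) : ℕ∞)) (φ ⊤) n := by
  classical
  unfold total
  rw [sum_wt]
  refine sum_odd_congr (E := Cl m W a (2 * M) b) (fun n hn => ?_) (fun n hn => phi_Fg φ hn) X
  obtain ⟨w, hw⟩ := hn.2
  obtain ⟨s, hs⟩ := hb
  push_cast at hw
  have : (n : ℤ) = 2 * (M * w + s) + 1 := by rw [hs] at hw; linarith
  omega

/-- Let `q 1, ..., q r` be pairwise coprime odd bases, let `W i` be a strongly additive integer valued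
function of the digits in base `q i` and let `m i` be positive integers. There is a number `δ`, `0 < δ ≤ 1`,
not depending on these data, with the following properties; `δ = 1` if and only if all heights of odd positive
integers are finite.

(1) (Uniform transfer.) For `M ≥ 1` there are `K` and `c > 0` such that for all functions `φ` of the height,
bounded by one, all `a i`, all odd `b` and all `X`, the sum of `φ (h(n))` over the `n ≤ X` with `W i n ≡ a i`
modulo `m i` for all `i` and `n ≡ b` modulo `2 M` is, up to `K X ^ (1 - c)`, the product of the `g i / m i` times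
the sum over the `n ≤ X` with `W i 1 n ≡ a i` modulo `g i` and `n ≡ b` modulo `2 M`; here `g i` is the greatest
common divisor of `m i` and the `W i r - r W i 1`, `0 ≤ r ≤ q i`.

Let now all the `g i` be `1`, and let `E` be the set of the odd `n` with `W i n ≡ a i` modulo `m i` for all `i`.

(2) (Law.) The `n ∈ E` such that `h(n)` is finite, at most `bound x n` and congruent to `b'` modulo `m'` have the
density `∏ (1 / m i) * δ * Phi x / m' / 2`.

(3) (Averages.) For `Λ > 2 / log (16/9)` the sum of `min (h(n), Λ log X)` over the `n ≤ X` in `E`, divided by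
`X log X / 2`, tends to `∏ (1 / m i) * (δ * 2 / log (16/9) + (1 - δ) Λ)`. Moreover there is `κ > 0` such that for
every function `t`, `1 ≤ t(X) ≤ X ^ κ`, the quotient of the sums of `min (h(n), t(X))` over the `n ≤ X` in `E` and
over all odd `n ≤ X` tends to `∏ (1 / m i)`.

(4) (Sufficiency.) For `θ > 0` and `C` there is `K` such that for every nondecreasing function `ψ`: if for
every `X` all but `C X ^ (1 - θ)` of the `n ≤ X` in `E` satisfy `h(n) ≤ ψ(n)`, then
`h(n) ≤ ψ(K n ^ K) + K (1 + log n)` for all odd positive integers `n`.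

(5) All heights of odd positive integers are finite if and only if for some `C` and `θ > 0` all but
`C X ^ (1 - θ)` of the `n ≤ X` in `E` have a finite height, for every `X`. The sum of the heights of all
odd `n ≤ X` is finite and `O (X ^ κ)` for some `κ` if and only if for some `κ`, `C` and `θ > 0` all but
`C X ^ (1 - θ)` of the `n ≤ X` in `E` satisfy `h(n) ≤ n ^ κ`, for every `X`. -/
theorem result : ∃ δ : ℝ, 0 < δ ∧ δ ≤ 1 ∧ (δ = 1 ↔ ∀ n : ℕ, Odd n → height n ≠ ⊤) ∧
    ∀ (r : ℕ) (q : Fin r → ℕ), (∀ i, 3 ≤ q i ∧ Odd (q i)) → (∀ i j, i ≠ j → Nat.Coprime (q i) (q j)) →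
    ∀ W : Fin r → ℕ → ℤ, (∀ i, Additive (q i) (W i)) → ∀ m : Fin r → ℕ, (∀ i, 1 ≤ m i) →
    (∀ M : ℕ, 1 ≤ M → ∃ K c : ℝ, 0 < c ∧ ∀ φ : ℕ∞ → ℝ, (∀ s, |φ s| ≤ 1) →
      ∀ (a : Fin r → ℤ) (b : ℤ), Odd b → ∀ X : ℕ, 1 ≤ X →
        |total φ (Class m W a M b) X - (∏ i, (obstruction (q i) (W i) (m i) : ℝ) / m i) *
          total φ (Class (fun i => obstruction (q i) (W i) (m i)) (fun i n => n * W i 1) a M b) X|
          ≤ K * (X : ℝ) ^ (1 - c)) ∧
    ((∀ i, obstruction (q i) (W i) (m i) = 1) → ∀ a : Fin r → ℤ, ∀ E : Set ℕ,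
      E = {n | Odd n ∧ ∀ i, (m i : ℤ) ∣ W i n - a i} →
      (∀ (m' : ℕ) (b' : ℤ) (x : ℝ), 1 ≤ m' →
        Tendsto (fun X : ℕ => (count E (Level m' b' x) X : ℝ) / X) atTop
          (𝓝 ((∏ i, 1 / (m i : ℝ)) * (δ * Phi x / m' / 2)))) ∧
      (∀ Λ : ℝ, 2 / Real.log (16 / 9) < Λ →
        Tendsto (fun X : ℕ => 2 * (∑ᶠ n ∈ {n : ℕ | 1 ≤ n ∧ n ≤ X ∧ n ∈ E}, truncated (Λ * Real.log X) n) /
          (X * Real.log X)) atTop
          (𝓝 ((∏ i, 1 / (m i : ℝ)) * (δ * (2 / Real.log (16 / 9)) + (1 - δ) * Λ)))) ∧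
      (∃ κ : ℝ, 0 < κ ∧ ∀ t : ℕ → ℝ, (∀ X : ℕ, 1 ≤ X → 1 ≤ t X ∧ t X ≤ (X : ℝ) ^ κ) →
        Tendsto (fun X : ℕ => (∑ᶠ n ∈ {n : ℕ | 1 ≤ n ∧ n ≤ X ∧ n ∈ E}, truncated (t X) n) /
          ∑ᶠ n ∈ {n : ℕ | 1 ≤ n ∧ n ≤ X ∧ Odd n}, truncated (t X) n) atTop (𝓝 (∏ i, 1 / (m i : ℝ)))) ∧
      (∀ θ C : ℝ, 0 < θ → ∃ K : ℝ, ∀ ψ : ℝ → ℝ, Monotone ψ →
        (∀ X : ℕ, 1 ≤ X → (count E (fun n => ¬ AtMost n (ψ n)) X : ℝ) ≤ C * (X : ℝ) ^ (1 - θ)) →
        ∀ n : ℕ, Odd n → AtMost n (ψ (K * (n : ℝ) ^ K) + K * (1 + Real.log n))) ∧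
      ((∀ n : ℕ, Odd n → height n ≠ ⊤) ↔ ∃ θ C : ℝ, 0 < θ ∧ ∀ X : ℕ, 1 ≤ X →
        (count E (fun n => height n = ⊤) X : ℝ) ≤ C * (X : ℝ) ^ (1 - θ)) ∧
      ((∃ κ C : ℝ, ∀ X : ℕ, 1 ≤ X → ∃ t : ℕ, heightSum X = t ∧ (t : ℝ) ≤ C * (X : ℝ) ^ κ) ↔
        ∃ κ θ C : ℝ, 0 < θ ∧ ∀ X : ℕ, 1 ≤ X →
          (count E (fun n => ¬ AtMost n ((n : ℝ) ^ κ)) X : ℝ) ≤ C * (X : ℝ) ^ (1 - θ))) := by
  classical
  obtain ⟨δ, hδ, h2, h3⟩ := nat3
  have hν := nu_pos'
  refine ⟨δ, hδ.pos, hδ.le, ?_, ?_⟩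
  · rw [h2]
    refine forall₂_congr fun n _ => ?_
    rw [height_lt_top_iff]
  intro r q hq hc W hW m hm
  have hq3 : ∀ i, 3 ≤ q i := fun i => (hq i).1
  have hqd : ∀ i, Nat.Coprime 2 (q i) := fun i => Nat.coprime_two_left.2 (hq i).2
  refine ⟨fun M hM => ?_, fun hobs a E hE => ?_⟩
  · obtain ⟨C, c, hC, hc0, -, HT⟩ := dig_tr q hq3 hqd hc W hW m hm (M := 2 * M) (by omega)
    refine ⟨C, c, hc0, fun φ hφ a b hb X hX => ?_⟩
    rw [total_eq _ _ _ _ hb, total_eq _ _ _ _ hb]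
    exact HT a b X hX _ _ (fun k o => hφ _) (hφ _)
  · obtain ⟨C, c, hC, hc0, hc1, HT⟩ := dig_tr1 q hq3 hqd hc W hW m hm hobs (M := 2) (by norm_num)
    have HT' : ∀ N : ℕ, 1 ≤ N → TrF (ind (Cl m W a 2 1)) (ind (fun n => n % 2 = 1)) (∏ i, (1 / (m i : ℝ)))
        (C * (N : ℝ) ^ (1 - c)) N := by
      intro N hN
      have h := HT a 1 N hN
      rw [ind_odd] at h
      exact h
    have hEc : ∀ n, n ∈ E ↔ Cl m W a 2 1 n := by
      intro n
      rw [hE]
      unfold Cl
      rw [Set.mem_ofPred_eq, and_comm]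
      apply and_congr_right
      intro _
      rw [Nat.odd_iff]
      omega
    have hEi : ind (fun n => n ∈ E) = ind (Cl m W a 2 1) := by
      funext n; exact ind_congr (hEc n)
    have hEo : ∀ n, Cl m W a 2 1 n → n % 2 = 1 := by
      intro n hn
      have := hn.2
      omega
    have hρ : 0 ≤ ∏ i, (1 / (m i : ℝ)) := Finset.prod_nonneg fun i _ => by positivity
    have hR := rich_dig q hq3 hqd hc W hW m hm hobs (M := 2) (by norm_num) a 1
    have hB := baseLB_odd (B := fun n : ℕ => ((2 : ℕ) : ℤ) ∣ n - 1) (fun n hn => by omega)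
    have hsuff : ∀ θ C : ℝ, 0 < θ → ∃ K : ℝ, 1 ≤ K ∧ ∀ ψ : ℝ → ℝ, Monotone ψ →
        (∀ X : ℕ, 1 ≤ X → (count E (fun n => ¬ AtMost n (ψ n)) X : ℝ) ≤ C * (X : ℝ) ^ (1 - θ)) →
        ∀ n : ℕ, 1 ≤ n → n % 2 = 1 → AtMost n (ψ (K * (n : ℝ) ^ K) + K * (1 + Real.log n)) := by
      intro θ C' hθ
      obtain ⟨K, hK, HK⟩ := suff_ind hR hB (B' := fun n => n % 2 = 1) hN_odd adv_H (C0 := C') hθ
      refine ⟨K, hK, fun ψ hψ hbad n hn hn2 => ?_⟩
      rw [atMost_iff hn2]
      refine HK ψ hψ (fun X hX => ?_) n hn hn2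
      have h1 := hbad X hX
      rw [count_eq, hEi] at h1
      rw [sub_zero]
      refine le_trans (le_of_eq ?_) h1
      refine sum_odd_congr (E := Cl m W a 2 1) hEo (fun n hn => ?_) X
      exact ind_congr (not_congr (atMost_iff hn).symm)
    have hfin : ∀ θ C : ℝ, 0 < θ → (∀ X : ℕ, 1 ≤ X → (count E (fun n => height n = ⊤) X : ℝ) ≤ C * (X : ℝ) ^ (1 - θ)) →
        ∀ n : ℕ, n % 2 = 1 → height n ≠ ⊤ := by
      intro θ C' hθ hbad n hn2
      obtain ⟨K, hK, HK⟩ := suff_ind hR hB (B' := fun n => n % 2 = 1) hN_odd (val := fun _ _ => 0)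
        (fun k o i i' => by
          beta_reduce
          have : (0 : ℝ) ≤ i := Nat.cast_nonneg _
          have : (0 : ℝ) ≤ i' := Nat.cast_nonneg _
          constructor <;> linarith) (C0 := C') hθ
      rw [fin_iff hn2]
      obtain ⟨k, hk, -⟩ := HK (fun _ => 0) (fun _ _ _ => le_rfl) (fun X hX => by
        have h1 := hbad X hX
        rw [count_eq, hEi] at h1
        rw [sub_zero]
        refine le_trans (le_of_eq ?_) h1
        refine sum_odd_congr (E := Cl m W a 2 1) hEo (fun n hn => ?_) X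
        apply ind_congr
        have h5 := not_iff_not.2 (fin_iff hn)
        rw [not_not] at h5
        rw [h5]
        simp) n (by omega) hn2
      exact ⟨k, hk⟩
    have hodd : ∀ X : ℕ, ∀ t : ℝ, ∑ᶠ n ∈ {n : ℕ | 1 ≤ n ∧ n ≤ X ∧ Odd n}, truncated t n =
        ∑ n ∈ Finset.Icc 1 X, ind (fun n => n % 2 = 1) n * fT t n := by
      intro X t
      have e : {n : ℕ | 1 ≤ n ∧ n ≤ X ∧ Odd n} = {n : ℕ | 1 ≤ n ∧ n ≤ X ∧ (fun n => n % 2 = 1) n} := by
        ext n
        simp only [Set.mem_ofPred_eq, Nat.odd_iff]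
      rw [e, fin_sum]
      exact sum_odd_congr (E := fun n => n % 2 = 1) (fun n hn => hn) (fun n hn => fT_eq t hn) X
    have hclass : ∀ X : ℕ, ∀ t : ℝ, ∑ᶠ n ∈ {n : ℕ | 1 ≤ n ∧ n ≤ X ∧ n ∈ E}, truncated t n =
        ∑ n ∈ Finset.Icc 1 X, ind (Cl m W a 2 1) n * fT t n := by
      intro X t
      rw [fin_sum X (fun n => n ∈ E), hEi]
      exact sum_odd_congr (E := Cl m W a 2 1) hEo (fun n hn => fT_eq t hn) X
    refine ⟨?_, ?_, ?_, ?_, ?_, ?_⟩
    · intro m' b' x hm'
      have h1 := dens_of (A := 1 / Real.log (4 / 3)) (b := bO) (val := valH) (cls := clsH m' b')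
        (d := fun x => δ / m' * Pool.Agent.H499R2.ND.Phi x / 2) (by positivity) bO_pos
        ((Pool.Agent.H499R2.ND.Phi_continuous.const_mul _).div_const _)
        (v := ind (fun n => n % 2 = 1)) (w := ind (Cl m W a 2 1)) (fun n => ⟨ind_nonneg _ _, ind_le_one _ _⟩)
        (fun n => ind_nonneg _ _)
        (fun y => by
          have h2 := hδ.law m' b' hm' y
          have e : ind (fun n => n % 2 = 1 ∧ Lv valH (clsH m' b') (th (1 / Real.log (4 / 3)) bO y) n) =
              fun n => ind (fun n => n % 2 = 1) n * ind (Lv valH (clsH m' b') (th (1 / Real.log (4 / 3)) bO y)) n := by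
            funext n
            exact ind_and _ _ n
          rw [e] at h2
          exact h2) hρ hC hc0 hc1 HT' x
      have e : Pool.Agent.H499R2.ND.Phi x = Phi x := Pool.Agent.H499R2.ND.phi_cdf x
      simp only [e] at h1
      unfold Mn at h1
      have e2 : δ / m' * Phi x / 2 = δ * Phi x / m' / 2 := by ring
      rw [e2] at h1
      refine h1.congr fun X => ?_
      rw [count_eq, hEi]
      congr 1
      refine (sum_odd_congr (E := Cl m W a 2 1) hEo (fun n hn => ?_) X).symm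
      exact ind_congr (level_iff m' b' x hn)
    · intro Λ hΛ
      rw [log_eq] at hΛ
      have hΛ0 : 0 < Λ := lt_trans (by positivity) hΛ
      have h1 := (avg_tendsto (fun _ _ => Nat.cast_nonneg _) isTr hΛ0 (base_H hδ isTr hΛ) hρ hc0 HT').const_mul 2
      have e1 : 2 * ((∏ i, 1 / (m i : ℝ)) * (δ / 2 * (1 / Real.log (4 / 3)) + (1 / 2 - δ / 2) * Λ)) =
          (∏ i, 1 / (m i : ℝ)) * (δ * (2 / Real.log (16 / 9)) + (1 - δ) * Λ) := by
        rw [log_eq]; ring
      rw [e1] at h1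
      refine h1.congr fun X => ?_
      rw [hclass, mul_div_assoc]
    · refine ⟨c / 2, by positivity, fun t ht => ?_⟩
      refine (avg_ratio hC hc0 HT' t ht).congr fun X => ?_
      rw [hclass, hodd]
    · intro θ C' hθ
      obtain ⟨K, -, HK⟩ := hsuff θ C' hθ
      refine ⟨K, fun ψ hψ hbad n hn => ?_⟩
      exact HK ψ hψ hbad n hn.pos (Nat.odd_iff.1 hn)
    · constructor
      · intro h
        refine ⟨1, 0, one_pos, fun X hX => ?_⟩
        rw [count_eq, zero_mul]
        refine le_of_eq (Finset.sum_eq_zero fun n _ => ?_)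
        by_cases hn : n ∈ E
        · rw [ind_neg (P := fun n => height n = ⊤) (h n (Nat.odd_iff.2 (hEo n ((hEc n).1 hn)))), mul_zero]
        · rw [ind_neg (P := fun n => n ∈ E) hn, zero_mul]
      · rintro ⟨θ, C', hθ, hbad⟩ n hn
        exact hfin θ C' hθ hbad n (Nat.odd_iff.1 hn)
    · constructor
      · rintro ⟨κ, C', h⟩
        obtain ⟨κ', h'⟩ := bound_of_sum h
        refine ⟨κ', 1, 0, one_pos, fun X hX => ?_⟩
        rw [count_eq, zero_mul]
        refine le_of_eq (Finset.sum_eq_zero fun n hn1 => ?_)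
        rw [Finset.mem_Icc] at hn1
        by_cases hn : n ∈ E
        · rw [ind_neg (P := fun n : ℕ => ¬ AtMost n ((n : ℝ) ^ κ')) (fun hcon => hcon (h' n hn1.1 (hEo n ((hEc n).1 hn)))),
            mul_zero]
        · rw [ind_neg (P := fun n => n ∈ E) hn, zero_mul]
      · rintro ⟨κ, θ, C', hθ, hbad⟩
        obtain ⟨K, hK, HK⟩ := hsuff θ C' hθ
        have hψ : Monotone (fun y : ℝ => max y 1 ^ max κ 0) := by
          intro y z hyz
          exact Real.rpow_le_rpow (by positivity) (max_le_max_right _ hyz) (le_max_right _ _)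
        obtain ⟨κ', C'', hκ', hC'', hpow⟩ := pow_bound (κ := κ) hK
        refine sum_of_bound hκ' hC'' fun n hn hn2 => ?_
        have hb : ∀ X : ℕ, 1 ≤ X → (count E (fun n => ¬ AtMost n ((fun y : ℝ => max y 1 ^ max κ 0) n)) X : ℝ) ≤
            C' * (X : ℝ) ^ (1 - θ) := by
          intro X hX
          refine le_trans ?_ (hbad X hX)
          rw [count_eq, count_eq]
          apply Finset.sum_le_sum
          intro n hn
          rw [Finset.mem_Icc] at hn
          apply mul_le_mul_of_nonneg_left _ (ind_nonneg _ _)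
          have hnR : (1 : ℝ) ≤ n := by exact_mod_cast hn.1
          apply ind_mono
          intro k4 k5
          apply k4
          obtain ⟨t, ht1, ht2⟩ := k5
          refine ⟨t, ht1, ht2.trans ?_⟩
          beta_reduce
          rw [max_eq_left hnR]
          exact Real.rpow_le_rpow_of_exponent_le hnR (le_max_left _ _)
        obtain ⟨t, ht1, ht2⟩ := HK _ hψ hb n hn hn2
        exact ⟨t, ht1, ht2.trans (hpow n hn)⟩

end Pool.Agent.Results.MP_2b866c_nt.DigitClasses
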