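import Pool.Agent.X266.CD.Cor2

set_option autoImplicit false

/-!
# Heights of the 3x+1 map and the fractional parts of polynomials

Let `α` be irrational and not a Liouville number and let `P` be a real polynomial of degree `k ≥ 2` with leading
coefficient `α`. The distribution of the height of the odd `n` for which the fractional part of `P n` is in an
interval is that of all odd integers, with a power saving which is uniform over all functions of the height, over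
the polynomials and over the intervals; so this also holds in the sparse sets of the `n ≤ X` with fractional part
less than `X ^ (-ν)`, and for the averages of `min (h, t)` with `t ≤ X ^ κ`. Moreover each of the sparse sets
`E = {n odd : {P n} < n ^ (-ν)}` is sufficient for the finiteness of all heights and for upper bounds: a bound
`h(n) ≤ ψ(n)` for the elements of `E`, with up to `C X ^ (1 - ν - θ)` exceptions `n ≤ X`, gives
`h(n) ≤ ψ(K n ^ K) + K (1 + log n)` for all odd integers.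

Method: a dispersion argument. For `2 ^ k ≤ X ^ (1 / 16)` the number of odd terms before `1` of the trajectory of
`n > √X` is a function of `T^k(n)` and the number `a` of odd terms before it. For each `a` the number of the
fibres of `T^k` times their range is about `X`, so that every power saving, on average over `h`, for the
correlations of the phases `P` at `n` and `n + h` in residue classes modulo `2 ^ k` is a saving for the
sum. The sufficiency follows from this with the function `n ↦ [n reaches a]` and a uniform lower bound for the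
number of the odd `n` in `(X / 2, X]` which reach `a`.
-/

namespace Pool.Agent.Results.MP_2b866c_nt.FractionalParts

open Filter Topology

/-- `C(m) = (3m+1)/2^e(m)`, `2^e(m)` the largest power of `2` dividing `3m+1` -/
def C (m : ℕ) : ℕ := (3 * m + 1) / 2 ^ padicValNat 2 (3 * m + 1)

/-- the height `h(m)`, the least `k ≥ 1` with `C^k(m) = 1`, and `⊤ = ∞` if there is none -/
noncomputable def height (m : ℕ) : ℕ∞ := sInf {k : ℕ∞ | ∃ j : ℕ, 1 ≤ j ∧ C^[j] m = 1 ∧ k = j}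

/-- the height truncated at `t`, that is `min (h(m), t)` -/
noncomputable def truncated (t : ℝ) (m : ℕ) : ℝ := if height m = ⊤ then t else min ((height m).toNat : ℝ) t

/-- `h(m)` is finite and at most `y` -/
def AtMost (m : ℕ) (y : ℝ) : Prop := ∃ t : ℕ, height m = t ∧ (t : ℝ) ≤ y

/-- `2 / log (16/9) * log m + x * log 2 * √(2 log m / (log (4/3))^3)` -/
noncomputable def bound (x : ℝ) (m : ℕ) : ℝ :=
  2 / Real.log (16 / 9) * Real.log m
    + x * (Real.log 2 * Real.sqrt (2 * Real.log m / Real.log (4 / 3) ^ 3))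

/-- The distribution function of the standard normal law. -/
noncomputable def Phi (x : ℝ) : ℝ :=
  ProbabilityTheory.cdf (ProbabilityTheory.gaussianReal 0 1) x

/-- `m` has a finite height, which is at most `bound x m` and congruent to `b` modulo `q`. -/
def Level (q : ℕ) (b : ℤ) (x : ℝ) (m : ℕ) : Prop :=
  ∃ h : ℕ, height m = h ∧ (h : ℝ) ≤ bound x m ∧ (h : ℤ) ≡ b [ZMOD q]

/-- `α` is irrational and not a Liouville number. -/
def Diophantine (α : ℝ) : Prop :=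
  ∃ A c : ℝ, 0 < c ∧ ∀ l : ℕ, 1 ≤ l → ∀ a : ℤ, c * (l : ℝ) ^ (-A) ≤ |l * α - a|

/-- The set of the odd `n` for which the fractional part of `P n` is in `[u, v)`. -/
def Part (P : Polynomial ℝ) (u v : ℝ) : Set ℕ :=
  {n | Odd n ∧ u ≤ Int.fract (P.eval (n : ℝ)) ∧ Int.fract (P.eval (n : ℝ)) < v}

/-- The set of the odd `n` for which the fractional part of `P n` is less than `n ^ (-ν)`. -/
def Sparse (P : Polynomial ℝ) (ν : ℝ) : Set ℕ := {n | Odd n ∧ Int.fract (P.eval (n : ℝ)) < (n : ℝ) ^ (-ν)}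

open Classical in
/-- The sum of `φ (h(n))` over the `n ≤ X` in `E` with `n ≡ b` modulo `2 M`. -/
noncomputable def total (φ : ℕ∞ → ℝ) (M : ℕ) (b : ℤ) (E : Set ℕ) (X : ℕ) : ℝ :=
  ∑ n ∈ (Finset.Icc 1 X).filter (fun n => n ∈ E ∧ ((2 * M : ℕ) : ℤ) ∣ n - b), φ (height n)

/-- The number of the `n ≤ X` in `E` with the property `P`. -/
noncomputable def count (E : Set ℕ) (P : ℕ → Prop) (X : ℕ) : ℕ := {n : ℕ | 1 ≤ n ∧ n ≤ X ∧ n ∈ E ∧ P n}.ncard

/-- The sum of the heights of the odd `n ≤ X`. -/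
noncomputable def heightSum (X : ℕ) : ℕ∞ := ∑ n ∈ (Finset.Icc 1 X).filter (fun n => n % 2 = 1), height n

open Pool.Agent.H499R2.ND in
theorem height_eq {m h : ℕ} (hh : IsHt m h) : height m = h := by
  unfold height
  apply le_antisymm
  · exact sInf_le ⟨h, hh.1, hh.2.1, rfl⟩
  · refine le_sInf ?_
    rintro k ⟨j, hj, hj1, rfl⟩
    have : h ≤ j := by
      by_contra hlt
      exact hh.2.2 j hj (by omega) hj1
    exact_mod_cast this

open Pool.Agent.H499R2.ND in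
theorem exists_isHt {m j : ℕ} (hj : 1 ≤ j) (h : C^[j] m = 1) : ∃ h, IsHt m h := by
  classical
  have hex : ∃ k, 1 ≤ k ∧ C^[k] m = 1 := ⟨j, hj, h⟩
  refine ⟨Nat.find hex, (Nat.find_spec hex).1, (Nat.find_spec hex).2, fun k hk hlt hk1 => ?_⟩
  exact Nat.find_min hex hlt ⟨hk, hk1⟩

open Pool.Agent.H499R2.ND in
theorem height_top {m : ℕ} (hh : ¬ ∃ h, IsHt m h) : height m = ⊤ := by
  unfold height
  have : {k : ℕ∞ | ∃ j : ℕ, 1 ≤ j ∧ C^[j] m = 1 ∧ k = j} = ∅ := by
    rw [Set.eq_empty_iff_forall_notMem]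
    rintro k ⟨j, hj, hj1, _⟩
    exact hh (exists_isHt hj hj1)
  rw [this, sInf_empty]

open Pool.Agent.H499R2.ND in
theorem height_lt_top_iff {m : ℕ} : height m ≠ ⊤ ↔ ∃ h, IsHt m h := by
  constructor
  · intro h
    by_contra hcon
    exact h (height_top hcon)
  · rintro ⟨h, hh⟩
    rw [height_eq hh]
    exact ENat.natCast_ne_top h

open Pool.Agent.H499R2.ND in
theorem height_iff {m h : ℕ} : height m = h ↔ IsHt m h := by
  constructor
  · intro hm
    obtain ⟨h', hh'⟩ := height_lt_top_iff.1 (show height m ≠ ⊤ by rw [hm]; exact ENat.natCast_ne_top h)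
    have h1 := height_eq hh'
    rw [hm] at h1
    have h2 : h = h' := by exact_mod_cast h1
    rw [h2]; exact hh'
  · exact height_eq

theorem bound_eq (x : ℝ) (m : ℕ) : bound x m = Pool.Agent.H499R2.HL.bo x (Real.log m) := by
  unfold bound Pool.Agent.H499R2.HL.bo
  have : Real.log (16 / 9) = 2 * Real.log (4 / 3) := by
    rw [show (16 : ℝ) / 9 = (4 / 3) ^ 2 by norm_num, Real.log_pow]; push_cast; ring
  rw [this]
  have : Real.log (4 / 3) ≠ 0 := (Real.log_pos (by norm_num)).ne'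
  congr 2
  field_simp

open Pool.Agent.H499R2.HL Pool.Agent.Y965.PL Pool.Agent.X266.CD Pool.Agent.Y55.DS
open Pool.Agent.H499R2.LT (odn)
open Pool.Agent.H499R2.ND (IsHt Tn)

theorem level_iff (q : ℕ) (b : ℤ) (x : ℝ) {m : ℕ} (hm : m % 2 = 1) : Level q b x m ↔
    Lv valH (clsH q b) (th (1 / Real.log (4 / 3)) bO x) m := by
  rw [← lev_ht q b x hm]
  unfold Level
  refine exists_congr fun h => ?_
  rw [height_iff, bound_eq]

theorem height_H {m k : ℕ} (hm : m % 2 = 1) (h : H k m) :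
    height m = ((max (odn k m) 1 : ℕ) : ℕ∞) :=
  height_eq ((ht_max hm _).2 ⟨k, h, rfl⟩)

theorem height_not {m : ℕ} (hm : m % 2 = 1) (h : ¬ ∃ k, H k m) : height m = ⊤ :=
  height_top fun hh => h ((ht_ex hm).1 hh)

theorem atMost_iff {m : ℕ} (hm : m % 2 = 1) {y : ℝ} : AtMost m y ↔ ∃ k, H k m ∧ valH k (odn k m) ≤ y := by
  unfold AtMost valH
  constructor
  · rintro ⟨t, ht, hty⟩
    obtain ⟨k, hk, hkt⟩ := (ht_max hm t).1 (height_iff.1 ht)
    refine ⟨k, hk, ?_⟩
    rw [hkt]; exact hty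
  · rintro ⟨k, hk, hky⟩
    exact ⟨_, height_H hm hk, hky⟩

theorem fin_iff {m : ℕ} (hm : m % 2 = 1) : height m ≠ ⊤ ↔ ∃ k, H k m := by
  rw [height_lt_top_iff, ht_ex hm]

theorem log_eq : 2 / Real.log (16 / 9) = 1 / Real.log (4 / 3) := by
  have : Real.log (16 / 9) = 2 * Real.log (4 / 3) := by
    rw [show (16 : ℝ) / 9 = (4 / 3) ^ 2 by norm_num, Real.log_pow]; push_cast; ring
  rw [this]
  have : Real.log (4 / 3) ≠ 0 := (Real.log_pos (by norm_num)).ne'
  field_simp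

theorem phi_Fg (φ : ℕ∞ → ℝ) {n : ℕ} (hn : n % 2 = 1) : φ (height n) = Fg (fun _ o => φ ((max o 1 : ℕ) : ℕ∞)) (φ ⊤) n := by
  by_cases h : ∃ k, H k n
  · obtain ⟨k, hk⟩ := h
    rw [Fg_H hk, height_H hn hk]
  · rw [Fg_not h, height_not hn h]

theorem count_eq (E : Set ℕ) (P : ℕ → Prop) (X : ℕ) :
    (count E P X : ℝ) = ∑ n ∈ Finset.Icc 1 X, ind (fun n => n ∈ E) n * ind P n := count_sum X (fun n => n ∈ E) P

/-- truncation, for all `n` -/
noncomputable def fT (t : ℝ) (n : ℕ) : ℝ := Fg (fun _ o => min ((max o 1 : ℕ) : ℝ) t) t n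

theorem isTr : IsTr valH fT := by
  constructor
  · intro t n k hk
    exact Fg_H hk
  · intro t n hn
    exact Fg_not hn

theorem fT_eq (t : ℝ) {m : ℕ} (hm : m % 2 = 1) : truncated t m = fT t m := by
  unfold truncated fT
  by_cases h : ∃ k, H k m
  · obtain ⟨k, hk⟩ := h
    rw [height_H hm hk, if_neg (ENat.natCast_ne_top _), ENat.toNat_natCast, Fg_H hk]
  · rw [height_not hm h, if_pos rfl, Fg_not h]

/-- sums over a set of odd integers only depend on the values there -/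
theorem sum_odd_congr {E : ℕ → Prop} (hE : ∀ n, E n → n % 2 = 1) {F G : ℕ → ℝ} (h : ∀ n, n % 2 = 1 → F n = G n)
    (X : ℕ) : ∑ n ∈ Finset.Icc 1 X, ind E n * F n = ∑ n ∈ Finset.Icc 1 X, ind E n * G n := by
  apply Finset.sum_congr rfl
  intro n _
  by_cases hn : E n
  · rw [h n (hE n hn)]
  · rw [ind_neg hn, zero_mul, zero_mul]

theorem pow_bound {K κ : ℝ} (hK : 1 ≤ K) : ∃ κ' C' : ℝ, 0 ≤ κ' ∧ 0 ≤ C' ∧ ∀ n : ℕ, 1 ≤ n →
    max (K * (n : ℝ) ^ K) 1 ^ max κ 0 + K * (1 + Real.log n) ≤ C' * (n : ℝ) ^ κ' := by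
  refine ⟨K * max κ 0 + 1, K ^ max κ 0 + 2 * K, by positivity, by positivity, fun n hn => ?_⟩
  have hn1 : (1 : ℝ) ≤ n := by exact_mod_cast hn
  have hn0 : (0 : ℝ) < n := by linarith
  have hp : 1 ≤ (n : ℝ) ^ K := Real.one_le_rpow hn1 (by linarith)
  have h1 : max (K * (n : ℝ) ^ K) 1 = K * (n : ℝ) ^ K := max_eq_left (by nlinarith)
  rw [h1, Real.mul_rpow (by linarith) (by positivity), ← Real.rpow_mul hn0.le]
  have h2 : Real.log n ≤ n := (Real.log_le_sub_one_of_pos hn0).trans (by linarith)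
  have h3 : (n : ℝ) ^ (K * max κ 0) ≤ (n : ℝ) ^ (K * max κ 0 + 1) := Real.rpow_le_rpow_of_exponent_le hn1 (by linarith)
  have h4 : (n : ℝ) ≤ (n : ℝ) ^ (K * max κ 0 + 1) := by
    calc (n : ℝ) = (n : ℝ) ^ (1 : ℝ) := (Real.rpow_one _).symm
      _ ≤ _ := Real.rpow_le_rpow_of_exponent_le hn1 (by
        have : 0 ≤ K * max κ 0 := by positivity
        linarith)
  have h5 : 0 ≤ K ^ max κ 0 := by positivity
  have h6 : K * (1 + Real.log n) ≤ 2 * K * (n : ℝ) ^ (K * max κ 0 + 1) := by nlinarith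
  have h7 := mul_le_mul_of_nonneg_left h3 h5
  linarith

/-- polynomial bounds for the sums of the heights -/
theorem sum_of_bound {κ C : ℝ} (hκ : 0 ≤ κ) (hC : 0 ≤ C) (h : ∀ n : ℕ, 1 ≤ n → n % 2 = 1 → AtMost n (C * (n : ℝ) ^ κ)) :
    ∃ κ C : ℝ, ∀ X : ℕ, 1 ≤ X → ∃ t : ℕ, heightSum X = t ∧ (t : ℝ) ≤ C * (X : ℝ) ^ κ := by
  classical
  refine ⟨κ + 1, C, fun X hX => ?_⟩
  unfold AtMost at h
  choose! t ht using h
  refine ⟨∑ n ∈ (Finset.Icc 1 X).filter (fun n => n % 2 = 1), t n, ?_, ?_⟩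
  · unfold heightSum
    rw [Nat.cast_sum]
    apply Finset.sum_congr rfl
    intro n hn
    rw [Finset.mem_filter, Finset.mem_Icc] at hn
    exact (ht n hn.1.1 hn.2).1
  · rw [Nat.cast_sum]
    have hXR : (0 : ℝ) < X := by exact_mod_cast hX
    have h1 : ∀ n ∈ (Finset.Icc 1 X).filter (fun n => n % 2 = 1), (t n : ℝ) ≤ C * (X : ℝ) ^ κ := by
      intro n hn
      rw [Finset.mem_filter, Finset.mem_Icc] at hn
      refine (ht n hn.1.1 hn.2).2.trans ?_
      apply mul_le_mul_of_nonneg_left _ hC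
      exact Real.rpow_le_rpow (Nat.cast_nonneg _) (by exact_mod_cast hn.1.2) hκ
    refine (Finset.sum_le_card_nsmul _ _ _ h1).trans ?_
    rw [nsmul_eq_mul, Real.rpow_add hXR, Real.rpow_one]
    have h2 : (((Finset.Icc 1 X).filter (fun n => n % 2 = 1)).card : ℝ) ≤ X := by
      have h3 := Finset.card_filter_le (Finset.Icc 1 X) (fun n => n % 2 = 1)
      rw [Nat.card_Icc, Nat.add_sub_cancel] at h3
      exact_mod_cast h3
    have h3 : 0 ≤ C * (X : ℝ) ^ κ := by positivity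
    nlinarith [mul_le_mul_of_nonneg_right h2 h3]

theorem bound_of_sum {κ C : ℝ} (h : ∀ X : ℕ, 1 ≤ X → ∃ t : ℕ, heightSum X = t ∧ (t : ℝ) ≤ C * (X : ℝ) ^ κ) :
    ∃ κ : ℝ, ∀ n : ℕ, 1 ≤ n → n % 2 = 1 → AtMost n ((n : ℝ) ^ κ) := by
  refine ⟨max κ 0 + Real.log (max C 1), fun n hn hn2 => ?_⟩
  obtain ⟨t, ht1, ht2⟩ := h n hn
  have h1 : height n ≤ heightSum n := by
    unfold heightSum
    exact Finset.single_le_sum (f := height) (fun i _ => zero_le) (Finset.mem_filter.2 ⟨Finset.mem_Icc.2 ⟨hn, le_rfl⟩, hn2⟩)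
  rw [ht1] at h1
  obtain ⟨s, hs⟩ := ENat.ne_top_iff_exists.1 (ne_top_of_le_ne_top (ENat.natCast_ne_top t) h1)
  refine ⟨s, hs.symm, ?_⟩
  by_cases hn1 : n = 1
  · subst hn1
    have h2 : H 0 1 := H_one
    have h3 := height_H (m := 1) (by norm_num) h2
    rw [← hs, odn_zero] at h3
    have h4 : s = 1 := by exact_mod_cast h3
    rw [h4]; simp
  · have hn3 : (3 : ℝ) ≤ n := by exact_mod_cast (by omega : 3 ≤ n)
    have hn0 : (0 : ℝ) < n := by linarith
    rw [← hs] at h1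
    have h5 : (s : ℝ) ≤ t := by exact_mod_cast h1
    refine h5.trans (ht2.trans ?_)
    rw [Real.rpow_add hn0]
    have hlog : 1 ≤ Real.log n := by
      rw [Real.le_log_iff_exp_le hn0]
      linarith [Real.exp_one_lt_d9]
    have hM : (1 : ℝ) ≤ max C 1 := le_max_right _ _
    have h6 : max C 1 ≤ (n : ℝ) ^ Real.log (max C 1) := by
      have h7 : (n : ℝ) ^ Real.log (max C 1) = (max C 1) ^ Real.log n := by
        rw [Real.rpow_def_of_pos hn0, Real.rpow_def_of_pos (by linarith), mul_comm]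
      rw [h7]
      calc max C 1 = (max C 1) ^ (1 : ℝ) := (Real.rpow_one _).symm
        _ ≤ _ := Real.rpow_le_rpow_of_exponent_le hM hlog
    have h8 : (n : ℝ) ^ κ ≤ (n : ℝ) ^ max κ 0 := Real.rpow_le_rpow_of_exponent_le (by linarith) (le_max_left _ _)
    calc C * (n : ℝ) ^ κ ≤ max C 1 * (n : ℝ) ^ κ := mul_le_mul_of_nonneg_right (le_max_left _ _) (by positivity)
      _ ≤ (n : ℝ) ^ Real.log (max C 1) * (n : ℝ) ^ max κ 0 := mul_le_mul h6 h8 (by positivity) (by positivity)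
      _ = _ := mul_comm _ _

theorem odd_of {M : ℕ} {b : ℤ} (hb : Odd b) {n : ℕ} (h : ((2 * M : ℕ) : ℤ) ∣ n - b) : n % 2 = 1 := by
  obtain ⟨w, hw⟩ := h
  obtain ⟨s, hs⟩ := hb
  push_cast at hw
  have : (n : ℤ) = 2 * (M * w + s) + 1 := by rw [hs] at hw; linarith
  omega

theorem total_eq (φ : ℕ∞ → ℝ) {M : ℕ} {b : ℤ} (hb : Odd b) (P : Polynomial ℝ) (u v : ℝ) (X : ℕ) :
    total φ M b (Part P u v) X = ∑ n ∈ Finset.Icc 1 X, ind (Fr (2 * M) b P u v) n *
      Fg (fun _ o => φ ((max o 1 : ℕ) : ℕ∞)) (φ ⊤) n := by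
  classical
  unfold total
  rw [sum_wt]
  rw [show ind (fun n : ℕ => n ∈ Part P u v ∧ ((2 * M : ℕ) : ℤ) ∣ n - b) = ind (Fr (2 * M) b P u v) by
    funext n
    apply ind_congr
    constructor
    · rintro ⟨h1, h2⟩; exact ⟨h2, h1.2⟩
    · rintro ⟨h1, h2⟩; exact ⟨⟨Nat.odd_iff.2 (odd_of hb h1), h2⟩, h1⟩]
  exact sum_odd_congr (E := Fr (2 * M) b P u v) (fun n hn => odd_of hb hn.1) (fun n hn => phi_Fg φ hn) X

theorem total_univ (φ : ℕ∞ → ℝ) {M : ℕ} {b : ℤ} (hb : Odd b) (X : ℕ) :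
    total φ M b Set.univ X = ∑ n ∈ Finset.Icc 1 X, ind (fun n => ((2 * M : ℕ) : ℤ) ∣ n - b) n *
      Fg (fun _ o => φ ((max o 1 : ℕ) : ℕ∞)) (φ ⊤) n := by
  classical
  unfold total
  rw [sum_wt]
  rw [show ind (fun n : ℕ => n ∈ Set.univ ∧ ((2 * M : ℕ) : ℤ) ∣ n - b) = ind (fun n : ℕ => ((2 * M : ℕ) : ℤ) ∣ n - b) by
    funext n
    apply ind_congr
    simp]
  exact sum_odd_congr (E := fun n : ℕ => ((2 * M : ℕ) : ℤ) ∣ n - b) (fun n hn => odd_of hb hn)
    (fun n hn => phi_Fg φ hn) X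

/-- There is a number `δ`, `0 < δ ≤ 1`, with the following properties; `δ = 1` if and only if all heights of odd
positive integers are finite. Let `k ≥ 2` and let `α` be irrational and not a Liouville number.
All the polynomials `P` below have degree `k` and the leading coefficient `α`.

(1) (Uniform transfer.) For `M ≥ 1` there are `K` and `c > 0` such that for all functions `φ` of the height,
bounded by one, all `P`, `0 ≤ u ≤ v ≤ 1`, odd `b` and `X`, the sum of `φ (h(n))` over the `n ≤ X`, `n ≡ b` modulo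
`2 M`, with the fractional part of `P n` in `[u, v)` is, up to `K X ^ (1 - c)`, `v - u` times the sum over all
`n ≤ X`, `n ≡ b` modulo `2 M`.

There are `K` and `c > 0` such that for all `P` and `0 ≤ u ≤ v ≤ 1` at once, with `E` the set of the odd `n` for
which the fractional part of `P n` is in `[u, v)`:

(2) (Law.) For `ε > 0` and all large `X`, the number of the `n ≤ X` in `E` such that `h(n)` is finite, at most
`bound x n` and congruent to `b'` modulo `m'` is `(v - u) * δ * Phi x / m' * X / 2`, up to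
`ε (v - u) X + K X ^ (1 - c)`.

(3) (Averages.) For `Λ > 2 / log (16/9)`, `ε > 0` and all large `X` the sum of `min (h(n), Λ log X)` over the
`n ≤ X` in `E`, divided by `log X`, is `(v - u) (δ * 2 / log (16/9) + (1 - δ) Λ) X / 2`, up to
`ε (v - u) X + K Λ X ^ (1 - c)`. For all `t > 0` and `X` the sum of `min (h(n), t)` over the `n ≤ X` in `E` is,
up to `K t X ^ (1 - c)`, `v - u` times the sum over all odd `n ≤ X`.

There is `ν₀ > 0`, depending on `k` and `α` only, such that for all `P` and `0 ≤ ν < ν₀`, with `S` the set of the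
odd `n` for which the fractional part of `P n` is less than `n ^ (-ν)`:

(4) (Sufficiency.) For `θ > 0` and `C` there is `K` such that for every nondecreasing function `ψ`: if for
every `X` all but `C X ^ (1 - ν - θ)` of the `n ≤ X` in `S` satisfy `h(n) ≤ ψ(n)`, then
`h(n) ≤ ψ(K n ^ K) + K (1 + log n)` for all odd positive integers `n`.

(5) All heights of odd positive integers are finite if and only if for some `C` and `θ > 0` all but
`C X ^ (1 - ν - θ)` of the `n ≤ X` in `S` have a finite height, for every `X`. The sum of the heights of all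
odd `n ≤ X` is finite and `O (X ^ κ)` for some `κ` if and only if for some `κ`, `C` and `θ > 0` all but
`C X ^ (1 - ν - θ)` of the `n ≤ X` in `S` satisfy `h(n) ≤ n ^ κ`, for every `X`. -/
theorem result : ∃ δ : ℝ, 0 < δ ∧ δ ≤ 1 ∧ (δ = 1 ↔ ∀ n : ℕ, Odd n → height n ≠ ⊤) ∧
    ∀ (k : ℕ) (α : ℝ), 2 ≤ k → Diophantine α →
    (∀ M : ℕ, 1 ≤ M → ∃ K c : ℝ, 0 < c ∧ ∀ φ : ℕ∞ → ℝ, (∀ s, |φ s| ≤ 1) →
      ∀ P : Polynomial ℝ, P.natDegree ≤ k → P.coeff k = α → ∀ u v : ℝ, 0 ≤ u → u ≤ v → v ≤ 1 →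
      ∀ b : ℤ, Odd b → ∀ X : ℕ, 1 ≤ X →
        |total φ M b (Part P u v) X - (v - u) * total φ M b Set.univ X| ≤ K * (X : ℝ) ^ (1 - c)) ∧
    (∃ K c : ℝ, 0 < c ∧
      (∀ (m' : ℕ) (b' : ℤ) (x ε : ℝ), 1 ≤ m' → 0 < ε → ∃ X₀ : ℕ, ∀ X : ℕ, X₀ ≤ X →
        ∀ P : Polynomial ℝ, P.natDegree ≤ k → P.coeff k = α → ∀ u v : ℝ, 0 ≤ u → u ≤ v → v ≤ 1 →
          |(count (Part P u v) (Level m' b' x) X : ℝ) - (v - u) * (δ * Phi x / m' / 2 * X)| ≤
            ε * (v - u) * X + K * (X : ℝ) ^ (1 - c)) ∧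
      (∀ Λ ε : ℝ, 2 / Real.log (16 / 9) < Λ → 0 < ε → ∃ X₀ : ℕ, ∀ X : ℕ, X₀ ≤ X →
        ∀ P : Polynomial ℝ, P.natDegree ≤ k → P.coeff k = α → ∀ u v : ℝ, 0 ≤ u → u ≤ v → v ≤ 1 →
          |(∑ᶠ n ∈ {n : ℕ | 1 ≤ n ∧ n ≤ X ∧ n ∈ Part P u v}, truncated (Λ * Real.log X) n) / Real.log X -
            (v - u) * ((δ * (2 / Real.log (16 / 9)) + (1 - δ) * Λ) / 2 * X)| ≤
            ε * (v - u) * X + Λ * (K * (X : ℝ) ^ (1 - c))) ∧
      (∀ t : ℝ, 0 < t → ∀ X : ℕ, 1 ≤ X →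
        ∀ P : Polynomial ℝ, P.natDegree ≤ k → P.coeff k = α → ∀ u v : ℝ, 0 ≤ u → u ≤ v → v ≤ 1 →
          |∑ᶠ n ∈ {n : ℕ | 1 ≤ n ∧ n ≤ X ∧ n ∈ Part P u v}, truncated t n -
            (v - u) * ∑ᶠ n ∈ {n : ℕ | 1 ≤ n ∧ n ≤ X ∧ Odd n}, truncated t n| ≤ t * (K * (X : ℝ) ^ (1 - c)))) ∧
    (∃ ν₀ : ℝ, 0 < ν₀ ∧ ∀ P : Polynomial ℝ, P.natDegree ≤ k → P.coeff k = α → ∀ ν : ℝ, 0 ≤ ν → ν < ν₀ →
      (∀ θ C : ℝ, 0 < θ → ∃ K : ℝ, ∀ ψ : ℝ → ℝ, Monotone ψ →
        (∀ X : ℕ, 1 ≤ X → (count (Sparse P ν) (fun n => ¬ AtMost n (ψ n)) X : ℝ) ≤ C * (X : ℝ) ^ (1 - ν - θ)) →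
        ∀ n : ℕ, Odd n → AtMost n (ψ (K * (n : ℝ) ^ K) + K * (1 + Real.log n))) ∧
      ((∀ n : ℕ, Odd n → height n ≠ ⊤) ↔ ∃ θ C : ℝ, 0 < θ ∧ ∀ X : ℕ, 1 ≤ X →
        (count (Sparse P ν) (fun n => height n = ⊤) X : ℝ) ≤ C * (X : ℝ) ^ (1 - ν - θ)) ∧
      ((∃ κ C : ℝ, ∀ X : ℕ, 1 ≤ X → ∃ t : ℕ, heightSum X = t ∧ (t : ℝ) ≤ C * (X : ℝ) ^ κ) ↔
        ∃ κ θ C : ℝ, 0 < θ ∧ ∀ X : ℕ, 1 ≤ X →
          (count (Sparse P ν) (fun n => ¬ AtMost n ((n : ℝ) ^ κ)) X : ℝ) ≤ C * (X : ℝ) ^ (1 - ν - θ))) := by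
  classical
  obtain ⟨δ, hδ, h2, h3⟩ := nat3
  have hν := nu_pos'
  refine ⟨δ, hδ.pos, hδ.le, ?_, ?_⟩
  · rw [h2]
    refine forall₂_congr fun n _ => ?_
    rw [height_lt_top_iff]
  intro k α hk hα
  obtain ⟨k, rfl⟩ : ∃ k', k = k' + 1 := ⟨k - 1, by omega⟩
  have hk1 : 1 ≤ k := by omega
  have hα' : Dioph α := hα
  have hEi : ∀ (P : Polynomial ℝ) (u v : ℝ), ind (fun n => n ∈ Part P u v) = ind (Fr 2 1 P u v) := by
    intro P u v
    funext n
    apply ind_congr
    unfold Fr Part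
    rw [Set.mem_ofPred_eq]
    apply and_congr_left
    intro _
    rw [Nat.odd_iff]
    omega
  have hodd : ∀ X : ℕ, ∀ t : ℝ, ∑ᶠ n ∈ {n : ℕ | 1 ≤ n ∧ n ≤ X ∧ Odd n}, truncated t n =
      ∑ n ∈ Finset.Icc 1 X, ind (fun n => n % 2 = 1) n * fT t n := by
    intro X t
    have e : {n : ℕ | 1 ≤ n ∧ n ≤ X ∧ Odd n} = {n : ℕ | 1 ≤ n ∧ n ≤ X ∧ (fun n => n % 2 = 1) n} := by
      ext n
      simp only [Set.mem_ofPred_eq, Nat.odd_iff]
    rw [e, fin_sum]
    exact sum_odd_congr (E := fun n => n % 2 = 1) (fun n hn => hn) (fun n hn => fT_eq t hn) X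
  have hFo : ∀ (P : Polynomial ℝ) (u v : ℝ) (n : ℕ), Fr 2 1 P u v n → n % 2 = 1 := by
    intro P u v n hn
    have := hn.1
    omega
  have hclass : ∀ (P : Polynomial ℝ) (u v : ℝ) (X : ℕ), ∀ t : ℝ, ∑ᶠ n ∈ {n : ℕ | 1 ≤ n ∧ n ≤ X ∧ n ∈ Part P u v}, truncated t n =
      ∑ n ∈ Finset.Icc 1 X, ind (Fr 2 1 P u v) n * fT t n := by
    intro P u v X t
    rw [fin_sum X (fun n => n ∈ Part P u v), hEi]
    exact sum_odd_congr (E := Fr 2 1 P u v) (hFo P u v) (fun n hn => fT_eq t hn) X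
  refine ⟨fun M hM => ?_, ?_, ?_⟩
  · obtain ⟨K, c, hc⟩ : ∃ K c : ℝ, 0 < c ∧ ∀ b ∈ Finset.range (2 * M), b % 2 = 1 → ∀ φ : ℕ∞ → ℝ, (∀ s, |φ s| ≤ 1) →
        ∀ P : Polynomial ℝ, P.natDegree ≤ k + 1 → P.coeff (k + 1) = α → ∀ u v : ℝ, 0 ≤ u → u ≤ v → v ≤ 1 →
        ∀ (X : ℕ), 1 ≤ X →
        |total φ M b (Part P u v) X - (v - u) * total φ M b Set.univ X| ≤ K * (X : ℝ) ^ (1 - c) := by
      have h1 : ∀ b : ℕ, ∃ K c : ℝ, 0 ≤ K ∧ 0 < c ∧ (b % 2 = 1 → ∀ φ : ℕ∞ → ℝ, (∀ s, |φ s| ≤ 1) →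
          ∀ P : Polynomial ℝ, P.natDegree ≤ k + 1 → P.coeff (k + 1) = α → ∀ u v : ℝ, 0 ≤ u → u ≤ v → v ≤ 1 →
          ∀ (X : ℕ), 1 ≤ X →
          |total φ M b (Part P u v) X - (v - u) * total φ M b Set.univ X| ≤ K * (X : ℝ) ^ (1 - c)) := by
        intro b
        obtain ⟨C, c, hC, hc0, -, HT⟩ := pol_tr hk1 hα' (M := 2 * M) (by omega) (b : ℤ)
        refine ⟨C, c, hC, hc0, fun hb2 φ hφ P hP hPc u v hu huv hv X hX => ?_⟩
        have hb : Odd (b : ℤ) := by
          rw [Int.odd_iff]; omega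
        rw [total_eq _ hb, total_univ _ hb]
        exact HT P hP hPc u v hu huv hv X hX _ _ (fun k o => hφ _) (hφ _)
      choose K c hK hc H using h1
      obtain ⟨c0, hc0, hc0'⟩ := exists_lower (Finset.range (2 * M)) c hc
      refine ⟨∑ b ∈ Finset.range (2 * M), K b, c0, hc0, fun b hb hb2 φ hφ P hP hPc u v hu huv hv X hX => ?_⟩
      refine (H b hb2 φ hφ P hP hPc u v hu huv hv X hX).trans ?_
      have hXR : (1 : ℝ) ≤ X := by exact_mod_cast hX
      exact mul_le_mul (Finset.single_le_sum (f := K) (fun i _ => hK i) hb)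
        (Real.rpow_le_rpow_of_exponent_le hXR (by linarith [hc0' b hb])) (by positivity)
        (Finset.sum_nonneg fun i _ => hK i)
    refine ⟨K, c, hc.1, fun φ hφ P hP hPc u v hu huv hv b hbo X hX => ?_⟩
    have hMz : (0 : ℤ) < ((2 * M : ℕ) : ℤ) := by exact_mod_cast (by omega : 0 < 2 * M)
    have hb0 := Int.emod_nonneg b hMz.ne'
    have hb1 := Int.emod_lt_of_pos b hMz
    have h5 : (((b % ((2 * M : ℕ) : ℤ)).toNat : ℕ) : ℤ) = b % ((2 * M : ℕ) : ℤ) := Int.toNat_of_nonneg hb0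
    have hbo2 : (b % ((2 * M : ℕ) : ℤ)).toNat % 2 = 1 := by
      obtain ⟨s, hs⟩ := hbo
      have h7 := Int.mul_ediv_add_emod b ((2 * M : ℕ) : ℤ)
      set z := b / ((2 * M : ℕ) : ℤ) with hz
      set y := b % ((2 * M : ℕ) : ℤ) with hy
      push_cast at h7
      have h8 : y = 2 * (s - M * z) + 1 := by rw [hs] at h7; linarith
      omega
    have h4 := hc.2 (b % ((2 * M : ℕ) : ℤ)).toNat (Finset.mem_range.2 (by omega)) hbo2 φ hφ P hP hPc u v hu huv hv X hX
    have h6 : ∀ E : Set ℕ, total φ M (((b % ((2 * M : ℕ) : ℤ)).toNat : ℕ) : ℤ) E X = total φ M b E X := by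
      intro E
      unfold total
      apply Finset.sum_congr _ fun _ _ => rfl
      apply Finset.filter_congr
      intro n _
      apply and_congr_right
      intro _
      rw [h5]
      have h7 : (n : ℤ) - b = (n - b % ((2 * M : ℕ) : ℤ)) - ((2 * M : ℕ) : ℤ) * (b / ((2 * M : ℕ) : ℤ)) := by
        have := Int.mul_ediv_add_emod b ((2 * M : ℕ) : ℤ)
        linarith
      rw [h7]
      exact (dvd_sub_left (dvd_mul_right _ _)).symm
    rw [h6, h6] at h4
    exact h4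
  · obtain ⟨C, c, hC, hc0, hc1, HT⟩ := pol_tr hk1 hα' (M := 2) (by norm_num) 1
    have HT' : ∀ P : Polynomial ℝ, P.natDegree ≤ k + 1 → P.coeff (k + 1) = α → ∀ u v : ℝ, 0 ≤ u → u ≤ v → v ≤ 1 →
        ∀ N : ℕ, 1 ≤ N → TrF (ind (Fr 2 1 P u v)) (ind (fun n => n % 2 = 1)) (v - u) (C * (N : ℝ) ^ (1 - c)) N := by
      intro P hP hPc u v hu huv hv N hN
      have h := HT P hP hPc u v hu huv hv N hN
      rw [ind_odd] at h
      exact h
    refine ⟨2 * C, c, hc0, ?_, ?_, ?_⟩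
    · intro m' b' x ε hm' hε
      obtain ⟨N0, h⟩ := law_of_tr (A := 1 / Real.log (4 / 3)) (b := bO) (val := valH) (cls := clsH m' b')
        (d := fun x => δ / m' * Pool.Agent.H499R2.ND.Phi x / 2) (by positivity) bO_pos
        ((Pool.Agent.H499R2.ND.Phi_continuous.const_mul _).div_const _)
        (v := ind (fun n => n % 2 = 1)) (fun n => ⟨ind_nonneg _ _, ind_le_one _ _⟩)
        (fun y => by
          have h2 := hδ.law m' b' hm' y
          have e : ind (fun n => n % 2 = 1 ∧ Lv valH (clsH m' b') (th (1 / Real.log (4 / 3)) bO y) n) =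
              fun n => ind (fun n => n % 2 = 1) n * ind (Lv valH (clsH m' b') (th (1 / Real.log (4 / 3)) bO y)) n := by
            funext n
            exact ind_and _ _ n
          rw [e] at h2
          exact h2) x hε
      refine ⟨N0, fun X hX P hP hPc u v hu huv hv => ?_⟩
      have h1 := h X hX (ind (Fr 2 1 P u v)) (v - u) (C * (X : ℝ) ^ (1 - c)) (fun n => ind_nonneg _ _) (by linarith)
        (fun M h4 h5 g g0 hg hg0 => (HT' P hP hPc u v hu huv hv M h4 g g0 hg hg0).trans (pow_le hC hc1 h5))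
      have e : Pool.Agent.H499R2.ND.Phi x = Phi x := Pool.Agent.H499R2.ND.phi_cdf x
      rw [e] at h1
      rw [count_eq, hEi]
      have e2 : ∑ n ∈ Finset.Icc 1 X, ind (Fr 2 1 P u v) n * ind (Level m' b' x) n = ∑ n ∈ Finset.Icc 1 X,
          ind (Fr 2 1 P u v) n * ind (Lv valH (clsH m' b') (th (1 / Real.log (4 / 3)) bO x)) n :=
        sum_odd_congr (E := Fr 2 1 P u v) (hFo P u v) (fun n hn => ind_congr (level_iff m' b' x hn)) X
      have e3 : δ / m' * Phi x / 2 = δ * Phi x / m' / 2 := by ring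
      rw [e3] at h1
      rw [e2, mul_assoc 2 C]
      exact h1
    · intro Λ ε hΛ hε
      rw [log_eq] at hΛ
      have hΛ0 : 0 < Λ := lt_trans (by positivity) hΛ
      obtain ⟨N0, h⟩ := avg_of (fun _ _ => Nat.cast_nonneg _) isTr hΛ0 (base_H hδ isTr hΛ) hε
      refine ⟨max N0 1, fun X hX P hP hPc u v hu huv hv => ?_⟩
      have hX1 : 1 ≤ X := (le_max_right _ _).trans hX
      have h1 := h X ((le_max_left _ _).trans hX) (ind (Fr 2 1 P u v)) (v - u) _ (by linarith)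
        (HT' P hP hPc u v hu huv hv X hX1)
      rw [hclass]
      have e1 : (δ * (2 / Real.log (16 / 9)) + (1 - δ) * Λ) / 2 = δ / 2 * (1 / Real.log (4 / 3)) + (1 / 2 - δ / 2) * Λ := by
        rw [log_eq]; ring
      rw [e1]
      refine h1.trans ?_
      have h4 : 0 ≤ Λ * (C * (X : ℝ) ^ (1 - c)) := by positivity
      have h5 : Λ * (2 * C * (X : ℝ) ^ (1 - c)) = 2 * (Λ * (C * (X : ℝ) ^ (1 - c))) := by ring
      rw [h5]
      linarith
    · intro t ht X hX P hP hPc u v hu huv hv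
      rw [hclass, hodd]
      have h4 := (HT' P hP hPc u v hu huv hv X hX).tr (val := valH) (fun _ _ => Nat.cast_nonneg _) isTr ht
      unfold Tr at h4
      refine h4.trans ?_
      have h5 : 0 ≤ t * (C * (X : ℝ) ^ (1 - c)) := by positivity
      have h6 : t * (2 * C * (X : ℝ) ^ (1 - c)) = 2 * (t * (C * (X : ℝ) ^ (1 - c))) := by ring
      rw [h6]
      linarith
  · obtain ⟨ν0, hν0, hν01, HR⟩ := rich_pol hk1 hα' (M := 2) (by norm_num) 1
    refine ⟨ν0, hν0, fun P hP hPc ν hν1 hν2 => ?_⟩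
    have hR := HR P hP hPc ν hν1 hν2
    have hB := baseLB_odd (B := fun n : ℕ => ((2 : ℕ) : ℤ) ∣ n - 1) (fun n hn => by omega)
    have hEc : ∀ n : ℕ, n ∈ Sparse P ν ↔ (((2 : ℕ) : ℤ) ∣ n - 1 ∧ Int.fract (P.eval (n : ℝ)) < (n : ℝ) ^ (-ν)) := by
      intro n
      unfold Sparse
      rw [Set.mem_ofPred_eq]
      apply and_congr_left
      intro _
      rw [Nat.odd_iff]
      omega
    have hEs : ind (fun n => n ∈ Sparse P ν) =
        ind (fun n : ℕ => ((2 : ℕ) : ℤ) ∣ n - 1 ∧ Int.fract (P.eval (n : ℝ)) < (n : ℝ) ^ (-ν)) := by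
      funext n
      exact ind_congr (hEc n)
    have hEo : ∀ n : ℕ, (((2 : ℕ) : ℤ) ∣ n - 1 ∧ Int.fract (P.eval (n : ℝ)) < (n : ℝ) ^ (-ν)) → n % 2 = 1 := by
      intro n hn
      have := hn.1
      omega
    have hsuff : ∀ θ C : ℝ, 0 < θ → ∃ K : ℝ, 1 ≤ K ∧ ∀ ψ : ℝ → ℝ, Monotone ψ →
        (∀ X : ℕ, 1 ≤ X → (count (Sparse P ν) (fun n => ¬ AtMost n (ψ n)) X : ℝ) ≤ C * (X : ℝ) ^ (1 - ν - θ)) →
        ∀ n : ℕ, 1 ≤ n → n % 2 = 1 → AtMost n (ψ (K * (n : ℝ) ^ K) + K * (1 + Real.log n)) := by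
      intro θ C' hθ
      obtain ⟨K, hK, HK⟩ := suff_ind hR hB (B' := fun n => n % 2 = 1) hN_odd adv_H (C0 := C') hθ
      refine ⟨K, hK, fun ψ hψ hbad n hn hn2 => ?_⟩
      rw [atMost_iff hn2]
      refine HK ψ hψ (fun X hX => ?_) n hn hn2
      have h1 := hbad X hX
      rw [count_eq, hEs] at h1
      refine le_trans (le_of_eq ?_) h1
      refine sum_odd_congr (E := fun n : ℕ => ((2 : ℕ) : ℤ) ∣ n - 1 ∧ Int.fract (P.eval (n : ℝ)) < (n : ℝ) ^ (-ν))
        hEo (fun n hn => ?_) X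
      exact ind_congr (not_congr (atMost_iff hn).symm)
    have hfin : ∀ θ C : ℝ, 0 < θ → (∀ X : ℕ, 1 ≤ X → (count (Sparse P ν) (fun n => height n = ⊤) X : ℝ) ≤
        C * (X : ℝ) ^ (1 - ν - θ)) → ∀ n : ℕ, n % 2 = 1 → height n ≠ ⊤ := by
      intro θ C' hθ hbad n hn2
      obtain ⟨K, hK, HK⟩ := suff_ind hR hB (B' := fun n => n % 2 = 1) hN_odd (val := fun _ _ => 0)
        (fun k o i i' => by
          beta_reduce
          have : (0 : ℝ) ≤ i := Nat.cast_nonneg _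
          have : (0 : ℝ) ≤ i' := Nat.cast_nonneg _
          constructor <;> linarith) (C0 := C') hθ
      rw [fin_iff hn2]
      obtain ⟨k, hk, -⟩ := HK (fun _ => 0) (fun _ _ _ => le_rfl) (fun X hX => by
        have h1 := hbad X hX
        rw [count_eq, hEs] at h1
        refine le_trans (le_of_eq ?_) h1
        refine sum_odd_congr (E := fun n : ℕ => ((2 : ℕ) : ℤ) ∣ n - 1 ∧ Int.fract (P.eval (n : ℝ)) < (n : ℝ) ^ (-ν))
          hEo (fun n hn => ?_) X
        apply ind_congr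
        have h5 := not_iff_not.2 (fin_iff hn)
        rw [not_not] at h5
        rw [h5]
        simp) n (by omega) hn2
      exact ⟨k, hk⟩
    refine ⟨?_, ?_, ?_⟩
    · intro θ C' hθ
      obtain ⟨K, -, HK⟩ := hsuff θ C' hθ
      refine ⟨K, fun ψ hψ hbad n hn => ?_⟩
      exact HK ψ hψ hbad n hn.pos (Nat.odd_iff.1 hn)
    · constructor
      · intro h
        refine ⟨1, 0, one_pos, fun X hX => ?_⟩
        rw [count_eq, zero_mul]
        refine le_of_eq (Finset.sum_eq_zero fun n _ => ?_)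
        by_cases hn : n ∈ Sparse P ν
        · rw [ind_neg (P := fun n => height n = ⊤) (h n hn.1), mul_zero]
        · rw [ind_neg (P := fun n => n ∈ Sparse P ν) hn, zero_mul]
      · rintro ⟨θ, C', hθ, hbad⟩ n hn
        exact hfin θ C' hθ hbad n (Nat.odd_iff.1 hn)
    · constructor
      · rintro ⟨κ, C', h⟩
        obtain ⟨κ', h'⟩ := bound_of_sum h
        refine ⟨κ', 1, 0, one_pos, fun X hX => ?_⟩
        rw [count_eq, zero_mul]
        refine le_of_eq (Finset.sum_eq_zero fun n hn1 => ?_)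
        rw [Finset.mem_Icc] at hn1
        by_cases hn : n ∈ Sparse P ν
        · rw [ind_neg (P := fun n : ℕ => ¬ AtMost n ((n : ℝ) ^ κ'))
            (fun hcon => hcon (h' n hn1.1 (Nat.odd_iff.1 hn.1))), mul_zero]
        · rw [ind_neg (P := fun n => n ∈ Sparse P ν) hn, zero_mul]
      · rintro ⟨κ, θ, C', hθ, hbad⟩
        obtain ⟨K, hK, HK⟩ := hsuff θ C' hθ
        have hψ : Monotone (fun y : ℝ => max y 1 ^ max κ 0) := by
          intro y z hyz
          exact Real.rpow_le_rpow (by positivity) (max_le_max_right _ hyz) (le_max_right _ _)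
        obtain ⟨κ', C'', hκ', hC'', hpow⟩ := pow_bound (κ := κ) hK
        refine sum_of_bound hκ' hC'' fun n hn hn2 => ?_
        have hb : ∀ X : ℕ, 1 ≤ X → (count (Sparse P ν) (fun n => ¬ AtMost n ((fun y : ℝ => max y 1 ^ max κ 0) n)) X : ℝ) ≤
            C' * (X : ℝ) ^ (1 - ν - θ) := by
          intro X hX
          refine le_trans ?_ (hbad X hX)
          rw [count_eq, count_eq]
          apply Finset.sum_le_sum
          intro n hn
          rw [Finset.mem_Icc] at hn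
          apply mul_le_mul_of_nonneg_left _ (ind_nonneg _ _)
          have hnR : (1 : ℝ) ≤ n := by exact_mod_cast hn.1
          apply ind_mono
          intro k4 k5
          apply k4
          obtain ⟨t, ht1, ht2⟩ := k5
          refine ⟨t, ht1, ht2.trans ?_⟩
          beta_reduce
          rw [max_eq_left hnR]
          exact Real.rpow_le_rpow_of_exponent_le hnR (le_max_left _ _)
        obtain ⟨t, ht1, ht2⟩ := HK _ hψ hb n hn hn2
        exact ⟨t, ht1, ht2.trans (hpow n hn)⟩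

end Pool.Agent.Results.MP_2b866c_nt.FractionalParts
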