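import Mathlib
import Pool.Agent.H499R2.HL.C
import Pool.Agent.X62.BF.Laws
import Pool.Agent.X62.BF.Avg

set_option autoImplicit false

/-!
The heights of the products of two odd integers under the `3x+1` map and their truncated averages, with
arbitrary bounded weights on the factors.
-/

namespace Pool.Agent.Results.MP_2b866c_nt.HeightsAtProducts

open Filter Topology Finset

/-- `C(m) = (3m+1)/2^e(m)`, `2^e(m)` the largest power of `2` dividing `3m+1` -/
def C (m : ℕ) : ℕ := (3 * m + 1) / 2 ^ padicValNat 2 (3 * m + 1)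

/-- the height `h(m)`, the least `k ≥ 1` with `C^k(m) = 1`, and `⊤ = ∞` if there is none -/
noncomputable def height (m : ℕ) : ℕ∞ := sInf {k : ℕ∞ | ∃ j : ℕ, 1 ≤ j ∧ C^[j] m = 1 ∧ k = j}

/-- `min(h(m), L)`, a natural number -/
noncomputable def truncHeight (m L : ℕ) : ℕ := (min (height m) (L : ℕ∞)).toNat

/-- among the odd positive integers, those with the property `P` have the natural density `δ` -/
def HasOddDensity (P : ℕ → Prop) (δ : ℝ) : Prop :=
  Tendsto (fun N : ℕ => 2 / (N : ℝ) * ({m : ℕ | m ≤ N ∧ Odd m ∧ P m}.ncard : ℝ)) atTop (𝓝 δ)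

/-- `2 / log (16/9) * log m + x * log 2 * √(2 log m / (log (4/3))^3)` -/
noncomputable def bound (x : ℝ) (m : ℕ) : ℝ :=
  2 / Real.log (16 / 9) * Real.log m
    + x * (Real.log 2 * Real.sqrt (2 * Real.log m / Real.log (4 / 3) ^ 3))

/-- The distribution function of the standard normal law. -/
noncomputable def Phi (x : ℝ) : ℝ :=
  ProbabilityTheory.cdf (ProbabilityTheory.gaussianReal 0 1) x

/-- The height of `m` is finite, at most `bound x m` and congruent to `b` modulo `q`. -/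
def Level (q : ℕ) (b : ℤ) (x : ℝ) (m : ℕ) : Prop :=
  ∃ h : ℕ, height m = h ∧ (h : ℝ) ≤ bound x m ∧ (h : ℤ) ≡ b [ZMOD q]

/-- `u` is a weight: `|u a| ≤ 1`, and `u a = 0` for even `a` (otherwise `u` is arbitrary). -/
def Weight (u : ℕ → ℂ) : Prop := (∀ a, ‖u a‖ ≤ 1) ∧ ∀ a, Even a → u a = 0

/-- THE AVERAGE of `F N m` at the products of two odd integers is `V`, with arbitrary bounded weights: for
every `ε > 0` there is `ϑ > 0` such that for every `α > 0`, all large `N`, all `M` between `N ^ α` and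
`N ^ ϑ`, all odd `r ≤ N ^ ϑ` and all weights `u`, `v` (arbitrary complex numbers of absolute value at most
`1` on the odd integers), the sum of `F N (r a b) u a v b` over the odd `a ∈ (M, 2 M]` and `b ∈ [1, N]` is
`V (∑ u a) (∑ v b)` up to `ε M N`. -/
def AverageAtProducts (F : ℕ → ℕ → ℝ) (V : ℝ) : Prop := ∀ ε : ℝ, 0 < ε → ∃ ϑ : ℝ, 0 < ϑ ∧ ∀ α : ℝ, 0 < α →
  ∃ N₀ : ℕ, ∀ N M r : ℕ, N₀ ≤ N → (N : ℝ) ^ α ≤ M → (M : ℝ) ≤ (N : ℝ) ^ ϑ → r % 2 = 1 →
    (r : ℝ) ≤ (N : ℝ) ^ ϑ → ∀ u v : ℕ → ℂ, Weight u → Weight v →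
    ‖∑ a ∈ Ioc M (2 * M), ∑ b ∈ Icc 1 N, F N (r * a * b) * (u a * v b) -
      V * ((∑ a ∈ Ioc M (2 * M), u a) * ∑ b ∈ Icc 1 N, v b)‖ ≤ ε * (M * N)

open scoped Classical in
/-- THE FREQUENCY of the property `P` at the products of two odd integers is `l`: as in
`AverageAtProducts`, with the sum of `u a * v b` over the pairs for which `r a b` has the property `P`. -/
def AtProducts (P : ℕ → Prop) (l : ℝ) : Prop := ∀ ε : ℝ, 0 < ε → ∃ ϑ : ℝ, 0 < ϑ ∧ ∀ α : ℝ, 0 < α →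
  ∃ N₀ : ℕ, ∀ N M r : ℕ, N₀ ≤ N → (N : ℝ) ^ α ≤ M → (M : ℝ) ≤ (N : ℝ) ^ ϑ → r % 2 = 1 →
    (r : ℝ) ≤ (N : ℝ) ^ ϑ → ∀ u v : ℕ → ℂ, Weight u → Weight v →
    ‖∑ p ∈ (Ioc M (2 * M) ×ˢ Icc 1 N).filter (fun p => P (r * p.1 * p.2)), u p.1 * v p.2 -
      l * ((∑ a ∈ Ioc M (2 * M), u a) * ∑ b ∈ Icc 1 N, v b)‖ ≤ ε * (M * N)

open Pool.Agent.X62.BF (PL PO AvP PO_of avg_prod PL_not PL_congr PL_sets pl_laws lln)

theorem at_of {P : ℕ → Prop} {l : ℝ} (h : PO P l) : AtProducts P l := by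
  intro ε hε
  obtain ⟨ϑ, h0, H⟩ := h ε hε
  refine ⟨ϑ, h0, fun α hα => ?_⟩
  obtain ⟨N0, H⟩ := H α hα
  exact ⟨N0, fun N M r hN h1 h2 h3 h4 u v hu hv => H N M r hN h1 h2 h3 h4 u v hu.1 hv.1 hu.2 hv.2⟩

theorem av_of {F : ℕ → ℕ → ℝ} {V : ℝ} (h : AvP F V) : AverageAtProducts F V := by
  intro ε hε
  obtain ⟨ϑ, h0, H⟩ := h ε hε
  refine ⟨ϑ, h0, fun α hα => ?_⟩
  obtain ⟨N0, H⟩ := H α hα
  exact ⟨N0, fun N M r hN h1 h2 h3 h4 u v hu hv => H N M r hN h1 h2 h3 h4 u v hu.1 hv.1 hu.2 hv.2⟩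

open Pool.Agent.H499R2.ND in
theorem height_eq {m h : ℕ} (hh : IsHt m h) : height m = h := by
  unfold height
  apply le_antisymm
  · exact sInf_le ⟨h, hh.1, hh.2.1, rfl⟩
  · refine le_sInf ?_
    rintro k ⟨j, hj, hj1, rfl⟩
    have : h ≤ j := by
      by_contra hlt
      exact hh.2.2 j hj (by omega) hj1
    exact_mod_cast this

open Pool.Agent.H499R2.ND in
theorem exists_isHt {m j : ℕ} (hj : 1 ≤ j) (h : C^[j] m = 1) : ∃ h, IsHt m h := by
  classical
  have hex : ∃ k, 1 ≤ k ∧ C^[k] m = 1 := ⟨j, hj, h⟩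
  refine ⟨Nat.find hex, (Nat.find_spec hex).1, (Nat.find_spec hex).2, fun k hk hlt hk1 => ?_⟩
  exact Nat.find_min hex hlt ⟨hk, hk1⟩

open Pool.Agent.H499R2.ND in
theorem height_top {m : ℕ} (hh : ¬ ∃ h, IsHt m h) : height m = ⊤ := by
  unfold height
  have : {k : ℕ∞ | ∃ j : ℕ, 1 ≤ j ∧ C^[j] m = 1 ∧ k = j} = ∅ := by
    rw [Set.eq_empty_iff_forall_notMem]
    rintro k ⟨j, hj, hj1, _⟩
    exact hh (exists_isHt hj hj1)
  rw [this, sInf_empty]

open Pool.Agent.H499R2.ND in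
theorem height_lt_top_iff {m : ℕ} : height m ≠ ⊤ ↔ ∃ h, IsHt m h := by
  constructor
  · intro h
    by_contra hcon
    exact h (height_top hcon)
  · rintro ⟨h, hh⟩
    rw [height_eq hh]
    exact ENat.natCast_ne_top h

open Pool.Agent.H499R2.ND in
theorem height_iff {m h : ℕ} : height m = h ↔ IsHt m h := by
  constructor
  · intro hm
    obtain ⟨h', hh'⟩ := height_lt_top_iff.1 (show height m ≠ ⊤ by rw [hm]; exact ENat.natCast_ne_top h)
    have h1 := height_eq hh'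
    rw [hm] at h1
    have h2 : h = h' := by exact_mod_cast h1
    rw [h2]; exact hh'
  · exact height_eq

open Pool.Agent.H499R2.ND in
theorem odd_density_of {P : ℕ → Prop} {δ : ℝ} (h : Dn (fun m => m % 2 = 1 ∧ P m) (δ / 2)) :
    HasOddDensity P δ := by
  unfold HasOddDensity
  have h1 := h.const_mul 2
  rw [mul_div_cancel₀ δ (by norm_num : (2 : ℝ) ≠ 0)] at h1
  refine h1.congr fun N => ?_
  have e : {m : ℕ | 1 ≤ m ∧ m ≤ N ∧ m % 2 = 1 ∧ P m} = {m : ℕ | m ≤ N ∧ Odd m ∧ P m} := by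
    ext m
    constructor
    · rintro ⟨g1, g2, g3, g4⟩
      exact ⟨g2, Nat.odd_iff.2 g3, g4⟩
    · rintro ⟨g2, g3, g4⟩
      exact ⟨g3.pos, g2, Nat.odd_iff.1 g3, g4⟩
  unfold cnt
  rw [e]
  ring

theorem two_log : 2 / Real.log (16 / 9) = 1 / Real.log (4 / 3) := by
  have : Real.log (16 / 9) = 2 * Real.log (4 / 3) := by
    rw [show (16 : ℝ) / 9 = (4 / 3) ^ 2 by norm_num, Real.log_pow]; push_cast; ring
  rw [this]
  have : Real.log (4 / 3) ≠ 0 := (Real.log_pos (by norm_num)).ne'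
  field_simp

theorem bound_eq (x : ℝ) (m : ℕ) : bound x m = Pool.Agent.H499R2.HL.bo x (Real.log m) := by
  unfold bound Pool.Agent.H499R2.HL.bo
  rw [two_log]

/-- finite heights with a property -/
theorem ht_trans {R : ℕ → Prop} {m : ℕ} (hm : 2 ≤ m) (ho : Odd m) :
    (∃ k, Pool.Agent.H499R2.HL.H k m ∧ R (Pool.Agent.H499R2.LT.odn k m)) ↔ ∃ h : ℕ, height m = h ∧ R h := by
  have h1 := fun h : ℕ => Pool.Agent.H499R2.HL.ht_H (x := m) (Nat.odd_iff.1 ho) (by omega) h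
  constructor
  · rintro ⟨k, hk, hR⟩
    exact ⟨_, height_iff.2 ((h1 _).2 ⟨k, hk, rfl⟩), hR⟩
  · rintro ⟨h, hh, hR⟩
    obtain ⟨k, hk, rfl⟩ := (h1 h).1 (height_iff.1 hh)
    exact ⟨k, hk, hR⟩

theorem trunc_of {m h L : ℕ} (hh : height m = h) : truncHeight m L = min h L := by
  unfold truncHeight
  rw [hh]
  rcases le_total h L with hl | hl
  · rw [min_eq_left hl, min_eq_left (by exact_mod_cast hl)]
    exact ENat.toNat_natCast _
  · rw [min_eq_right hl, min_eq_right (by exact_mod_cast hl)]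
    exact ENat.toNat_natCast _

theorem trunc_top {m L : ℕ} (hh : height m = ⊤) : truncHeight m L = L := by
  unfold truncHeight
  rw [hh, min_eq_right le_top]
  exact ENat.toNat_natCast _

theorem trunc_le (m L : ℕ) : truncHeight m L ≤ L := by
  by_cases h : height m = ⊤
  · rw [trunc_top h]
  · obtain ⟨k, hk⟩ := ENat.ne_top_iff_exists.1 h
    rw [trunc_of hk.symm]
    exact min_le_right _ _


/-- the truncated averages -/
theorem avg_main {δ c0 Λ : ℝ} (hc0 : 0 < c0) (hΛ : c0 < Λ)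
    (h1 : ∀ η : ℝ, 0 < η → PL (fun n => ∃ k, Pool.Agent.H499R2.HL.H k n ∧
      |(Pool.Agent.H499R2.LT.odn k n : ℝ) - c0 * Real.log n| ≤ η * Real.log n) δ)
    (h2 : PL (fun n => ¬ ∃ k, Pool.Agent.H499R2.HL.H k n) (1 - δ))
    (hfin : ∀ m : ℕ, Odd m → ((∃ k, Pool.Agent.H499R2.HL.H k m) ↔ height m ≠ ⊤)) :
    AvP (fun N m => (truncHeight m ⌊Λ * Real.log N⌋₊ : ℝ) / Real.log N) (δ * c0 + (1 - δ) * Λ) := by
  have hΛ0 : 0 < Λ := hc0.trans hΛ
  refine avg_prod (B := Λ) (v1 := c0) (v2 := Λ) hΛ0 (fun N m => ?_) (by rw [abs_of_pos hc0]; exact hΛ.le)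
    (by rw [abs_of_pos hΛ0]) (fun η hη => ?_)
  · have hL : 0 ≤ Real.log N := Real.log_natCast_nonneg N
    rw [abs_of_nonneg (by positivity)]
    rcases hL.eq_or_lt with h | h
    · rw [← h, div_zero]; exact hΛ0.le
    · rw [div_le_iff₀ h]
      calc ((truncHeight m ⌊Λ * Real.log N⌋₊ : ℕ) : ℝ) ≤ (⌊Λ * Real.log N⌋₊ : ℝ) := by exact_mod_cast trunc_le _ _
        _ ≤ Λ * Real.log N := Nat.floor_le (by positivity)
  · set η0 : ℝ := min (η / 4) (min ((Λ - c0) / 4) 1) with hη0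
    have hη00 : 0 < η0 := lt_min (by positivity) (lt_min (by linarith) one_pos)
    have hη01 : η0 ≤ η / 4 := min_le_left _ _
    have hη02 : η0 ≤ (Λ - c0) / 4 := (min_le_right _ _).trans (min_le_left _ _)
    have hη03 : η0 ≤ 1 := (min_le_right _ _).trans (min_le_right _ _)
    set τ : ℝ := min (η0 / (c0 + 1)) 1 with hτ
    have hτ0 : 0 < τ := lt_min (by positivity) one_pos
    have hτ1 : (c0 + 1) * τ ≤ η0 := by
      have := min_le_left (η0 / (c0 + 1)) 1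
      rw [← hτ] at this
      rw [le_div_iff₀ (by positivity)] at this
      linarith
    have tl : Tendsto (fun N : ℕ => Real.log N) atTop atTop :=
      Real.tendsto_log_atTop.comp tendsto_natCast_atTop_atTop
    obtain ⟨n0, hn0⟩ := eventually_atTop.1 (tl.eventually_ge_atTop (max 1 (max (4 / (Λ - c0)) (2 / η))))
    refine ⟨_, _, δ, 1 - δ, τ, n0 + 2, h1 η0 hη00, h2, by ring, rfl, fun n hn hn2 => ?_, hτ0,
      fun N n hN hn ho hlog => ?_⟩
    · obtain ⟨k, hk, _⟩ := hn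
      exact hn2 ⟨k, hk⟩
    · have g2 := hn0 N (by omega)
      simp only [max_le_iff] at g2
      obtain ⟨g3, g4, g5⟩ := g2
      set L := Real.log N with hL
      have hL0 : 0 < L := by linarith
      rw [div_le_iff₀ (by linarith)] at g4
      rw [div_le_iff₀ hη] at g5
      have hfl := Nat.lt_floor_add_one (Λ * L)
      have hfl2 : (⌊Λ * L⌋₊ : ℝ) ≤ Λ * L := Nat.floor_le (by positivity)
      have hlogn0 : 0 ≤ Real.log n := Real.log_natCast_nonneg n
      rw [abs_le] at hlog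
      constructor
      · rintro ⟨k, hk, hb⟩
        obtain ⟨h, hh, hR⟩ := (ht_trans (R := fun h => h = Pool.Agent.H499R2.LT.odn k n) (m := n) (by omega) ho).1
          ⟨k, hk, rfl⟩
        show |(truncHeight n ⌊Λ * L⌋₊ : ℝ) / L - c0| ≤ η
        rw [← hR] at hb
        obtain ⟨b1, b2⟩ := abs_le.1 hb
        have c1 : η0 * Real.log n ≤ η0 * (L + τ * L) := mul_le_mul_of_nonneg_left (by linarith) hη00.le
        have c2 : c0 * Real.log n ≤ c0 * (L + τ * L) := mul_le_mul_of_nonneg_left (by linarith) hc0.le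
        have c3 : c0 * (L - τ * L) ≤ c0 * Real.log n := mul_le_mul_of_nonneg_left (by linarith) hc0.le
        have c4 : (c0 + 1) * τ * L ≤ η0 * L := mul_le_mul_of_nonneg_right hτ1 hL0.le
        have c5 : η0 * (τ * L) ≤ 1 * (τ * L) := mul_le_mul_of_nonneg_right hη03 (by positivity)
        have c6 : η0 * L ≤ η / 4 * L := mul_le_mul_of_nonneg_right hη01 hL0.le
        have c7 : η0 * L ≤ (Λ - c0) / 4 * L := mul_le_mul_of_nonneg_right hη02 hL0.le
        have c8 : (h : ℝ) ≤ ⌊Λ * L⌋₊ := by nlinarith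
        rw [trunc_of hh, min_eq_left (by exact_mod_cast c8)]
        have e : (h : ℝ) / L - c0 = ((h : ℝ) - c0 * L) / L := by field_simp
        rw [e, abs_div, abs_of_pos hL0, div_le_iff₀ hL0, abs_le]
        constructor <;> nlinarith
      · intro hh
        rw [hfin n ho, not_not] at hh
        show |(truncHeight n ⌊Λ * L⌋₊ : ℝ) / L - Λ| ≤ η
        rw [trunc_top hh]
        have e : (⌊Λ * L⌋₊ : ℝ) / L - Λ = ((⌊Λ * L⌋₊ : ℝ) - Λ * L) / L := by field_simp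
        rw [e, abs_div, abs_of_pos hL0, div_le_iff₀ hL0, abs_le]
        constructor <;> nlinarith

/-- THE HEIGHTS AND THEIR AVERAGE ORDER AT THE PRODUCTS OF TWO ODD INTEGERS.
Let `δ > 0` be the natural density of the finite heights among the odd positive integers (`δ = 1` if and
only if all heights are finite). In the sense of `AtProducts` and `AverageAtProducts` (products `m = r a b`
of odd integers, `a ∈ (M, 2 M]`, `b ≤ N`, `N ^ α ≤ M ≤ N ^ ϑ`, `r ≤ N ^ ϑ`, with arbitrary bounded complex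
weights `u a * v b`):
(1) the `m` with infinite height have frequency `1 - δ`;
(2) the `m` with `h(m) ≤ 2 / log (16/9) log m + x log 2 √(2 log m / (log (4/3))^3)` and `h(m) ≡ b` modulo
`q` have frequency `δ Φ(x) / q`, `Φ` the standard normal distribution function;
(3) for every `η > 0` the `m` with `|h(m) - 2 / log (16/9) log m| ≤ η log m` have frequency `δ`;
(4) for every `Λ > 2 / log (16/9)` the average of `min(h(m), ⌊Λ log N⌋)` is
`(δ 2 / log (16/9) + (1 - δ) Λ) log N`.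
(5) SETS. For `Λ > 2 / log (16/9)` and `ε > 0` there is `ϑ > 0` such that for all `α > 0`, all large `N`, all
`M` in `[N ^ α, N ^ ϑ]`, all odd `r ≤ N ^ ϑ` and ALL sets `A ⊆ (M, 2 M]`, `B ⊆ [1, N]` of odd integers the sum
of `min(h(r a b), ⌊Λ log N⌋)` over `a ∈ A`, `b ∈ B` is `(δ 2 / log (16/9) + (1 - δ) Λ) |A| |B| log N` up to
`ε M N log N`. -/
theorem result : ∃ δ : ℝ, 0 < δ ∧ δ ≤ 1 ∧ (δ = 1 ↔ ∀ m : ℕ, Odd m → height m ≠ ⊤) ∧
    HasOddDensity (fun m => height m ≠ ⊤) δ ∧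
    AtProducts (fun m => height m = ⊤) (1 - δ) ∧
    (∀ (q : ℕ) (b : ℤ) (x : ℝ), 1 ≤ q → AtProducts (Level q b x) (δ * Phi x / q)) ∧
    (∀ η : ℝ, 0 < η → AtProducts (fun m => ∃ h : ℕ, height m = h ∧
      |(h : ℝ) - 2 / Real.log (16 / 9) * Real.log m| ≤ η * Real.log m) δ) ∧
    (∀ Λ : ℝ, 2 / Real.log (16 / 9) < Λ →
      AverageAtProducts (fun N m => (truncHeight m ⌊Λ * Real.log N⌋₊ : ℝ) / Real.log N)
        (δ * (2 / Real.log (16 / 9)) + (1 - δ) * Λ)) ∧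
    (∀ Λ ε : ℝ, 2 / Real.log (16 / 9) < Λ → 0 < ε → ∃ ϑ : ℝ, 0 < ϑ ∧ ∀ α : ℝ, 0 < α →
      ∃ N₀ : ℕ, ∀ N M r : ℕ, N₀ ≤ N → (N : ℝ) ^ α ≤ M → (M : ℝ) ≤ (N : ℝ) ^ ϑ → r % 2 = 1 →
      (r : ℝ) ≤ (N : ℝ) ^ ϑ → ∀ A B : Finset ℕ, A ⊆ Ioc M (2 * M) → B ⊆ Icc 1 N → (∀ a ∈ A, Odd a) →
      (∀ b ∈ B, Odd b) →
      |∑ a ∈ A, ∑ b ∈ B, (truncHeight (r * a * b) ⌊Λ * Real.log N⌋₊ : ℝ) -
        (δ * (2 / Real.log (16 / 9)) + (1 - δ) * Λ) * (A.card * B.card) * Real.log N| ≤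
        ε * (M * N) * Real.log N) := by
  obtain ⟨δ, h0, h1, h2, h3, h4, h5⟩ := pl_laws
  have hBas : ∀ m : ℕ, Odd m → (Pool.Agent.H499R2.ND.Bas m ↔ height m ≠ ⊤) := fun m hm => by
    rw [height_lt_top_iff]
    exact Pool.Agent.H499R2.ND.ht_iff hm
  have hfin : ∀ m : ℕ, Odd m → ((∃ k, Pool.Agent.H499R2.HL.H k m) ↔ height m ≠ ⊤) := fun m hm => by
    rw [← hBas m hm]
    exact (Pool.Agent.Y964.LW.hit_iff m).symm
  have hinf0 : PL (fun n => ¬ ∃ k, Pool.Agent.H499R2.HL.H k n) (1 - δ) := PL_not h4 (fun _ => Iff.rfl)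
  have hinf : PO (fun m => height m = ⊤) (1 - δ) := PO_of hinf0 0 (fun n _ ho => by rw [hfin n ho, not_not])
  have hll0 : ∀ η : ℝ, 0 < η → PL (fun n => ∃ k, Pool.Agent.H499R2.HL.H k n ∧
      |(Pool.Agent.H499R2.LT.odn k n : ℝ) - 1 / Real.log (4 / 3) * Real.log n| ≤ η * Real.log n) δ := by
    intro η hη
    have hrr := Pool.Agent.H499R2.HL.rr_pos
    have hl2 : 0 < Real.log 2 := Real.log_pos (by norm_num)
    exact lln (f := fun k n => (Pool.Agent.H499R2.LT.odn k n : ℝ))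
      (α := 1 / Real.log (4 / 3))
      (σ := Real.log 2 * Pool.Agent.H499R2.HL.rr) (δ := δ) (η := η) (by positivity) h0.le h1 hη (fun x => by
        have h7 := ((h5 1 0 0 le_rfl).2.2 x).2.2
        have e1 : δ / ((1 : ℕ) : ℝ) * Pool.Agent.H499R2.ND.Phi x = δ * Pool.Agent.H499R2.ND.Phi x := by simp
        rw [e1] at h7
        refine PL_congr 0 (fun n _ => exists_congr fun k => and_congr_right fun _ => ?_) h7
        rw [← Pool.Agent.Y964.LW.bo_thr]
        simp [Int.modEq_one]) h4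
  have hll : ∀ η : ℝ, 0 < η → PO (fun m => ∃ h : ℕ, height m = h ∧
      |(h : ℝ) - 2 / Real.log (16 / 9) * Real.log m| ≤ η * Real.log m) δ := by
    intro η hη
    refine PO_of (hll0 η hη) 2 (fun n hn ho => ?_)
    rw [two_log]
    exact ht_trans (R := fun h => |(h : ℝ) - 1 / Real.log (4 / 3) * Real.log n| ≤ η * Real.log n) hn ho
  have hav : ∀ Λ : ℝ, 2 / Real.log (16 / 9) < Λ → AvP
      (fun N m => (truncHeight m ⌊Λ * Real.log N⌋₊ : ℝ) / Real.log N)
        (δ * (2 / Real.log (16 / 9)) + (1 - δ) * Λ) := fun Λ hΛ =>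
    avg_main (div_pos (by norm_num) (Real.log_pos (by norm_num))) hΛ (by rw [two_log]; exact hll0) hinf0 hfin
  refine ⟨δ, h0, h1, ?_, ?_, at_of hinf, fun q b x hq => at_of ?_, fun η hη => at_of (hll η hη),
    fun Λ hΛ => av_of (hav Λ hΛ), fun Λ ε hΛ hε => ?_⟩
  · rw [h2]
    refine Iff.trans Pool.Agent.H499R2.ND.bas_all_iff ?_
    exact forall_congr' fun m => forall_congr' fun _ => height_lt_top_iff.symm
  · apply odd_density_of
    have h6 : Pool.Agent.H499R2.ND.Dn (fun m => m % 2 = 1 ∧ Pool.Agent.H499R2.ND.Bas m) (δ / 2) := by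
      have := Pool.Agent.H499R2.ND.inv_prog Pool.Agent.H499R2.ND.Bas_inv h3 (q := 2) (by norm_num) 1
      exact_mod_cast this
    exact Pool.Agent.H499R2.LT.Dn_iff (fun n _ => and_congr_right fun h => hBas n (Nat.odd_iff.2 h)) h6
  · have h6 := ((h5 q 0 b hq).2.2 x).2.2
    have e : δ / (q : ℝ) * Pool.Agent.H499R2.ND.Phi x = δ * Phi x / q := by
      unfold Phi
      rw [← Pool.Agent.H499R2.ND.phi_cdf]
      ring
    rw [e] at h6
    refine PO_of h6 2 (fun n hn ho => ?_)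
    rw [← bound_eq]
    exact ht_trans (R := fun h => (h : ℝ) ≤ bound x n ∧ (h : ℤ) ≡ b [ZMOD q]) hn ho
  · obtain ⟨ϑ, t0, H⟩ := hav Λ hΛ ε hε
    refine ⟨ϑ, t0, fun α hα => ?_⟩
    obtain ⟨N0, H⟩ := H α hα
    refine ⟨max N0 2, fun N M r hN hM1 hM2 hr hr2 A B hA hB hAo hBo => ?_⟩
    classical
    have hL : 0 < Real.log N := Real.log_pos (by
      have : 2 ≤ N := (le_max_right _ _).trans hN
      exact_mod_cast (by omega : 1 < N))
    have h6 := H N M r ((le_max_left _ _).trans hN) hM1 hM2 hr hr2 (fun a => if a ∈ A then 1 else 0)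
      (fun b => if b ∈ B then 1 else 0) (fun a => by beta_reduce; split_ifs <;> simp)
      (fun a => by beta_reduce; split_ifs <;> simp)
      (fun a ha => if_neg fun h => (Nat.not_odd_iff_even.2 ha) (hAo a h))
      (fun a ha => if_neg fun h => (Nat.not_odd_iff_even.2 ha) (hBo a h))
    have eA : ∑ a ∈ Ioc M (2 * M), (if a ∈ A then (1 : ℂ) else 0) = A.card := by
      rw [← sum_filter, filter_mem_eq_inter, inter_eq_right.2 hA, sum_const, nsmul_eq_mul, mul_one]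
    have eB : ∑ a ∈ Icc 1 N, (if a ∈ B then (1 : ℂ) else 0) = B.card := by
      rw [← sum_filter, filter_mem_eq_inter, inter_eq_right.2 hB, sum_const, nsmul_eq_mul, mul_one]
    rw [eA, eB] at h6
    have eS : ∑ a ∈ Ioc M (2 * M), ∑ b ∈ Icc 1 N,
        (((truncHeight (r * a * b) ⌊Λ * Real.log N⌋₊ : ℝ) / Real.log N : ℝ) : ℂ) *
          ((if a ∈ A then 1 else 0) * (if b ∈ B then 1 else 0)) =
        ((∑ a ∈ A, ∑ b ∈ B, (truncHeight (r * a * b) ⌊Λ * Real.log N⌋₊ : ℝ) / Real.log N : ℝ) : ℂ) := by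
      rw [← sum_subset hA]
      · push_cast
        apply sum_congr rfl
        intro a ha
        rw [← sum_subset hB]
        · apply sum_congr rfl
          intro b hb
          rw [if_pos ha, if_pos hb]; ring
        · intro b _ hb
          rw [if_neg hb]; ring
      · intro a _ ha
        apply sum_eq_zero
        intro b _
        rw [if_neg ha]; ring
    rw [eS] at h6
    have e7 : ((∑ a ∈ A, ∑ b ∈ B, (truncHeight (r * a * b) ⌊Λ * Real.log N⌋₊ : ℝ) / Real.log N : ℝ) : ℂ) -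
        ((δ * (2 / Real.log (16 / 9)) + (1 - δ) * Λ : ℝ) : ℂ) * ((A.card : ℂ) * B.card) =
        ((∑ a ∈ A, ∑ b ∈ B, (truncHeight (r * a * b) ⌊Λ * Real.log N⌋₊ : ℝ) / Real.log N -
          (δ * (2 / Real.log (16 / 9)) + (1 - δ) * Λ) * (A.card * B.card) : ℝ) : ℂ) := by
      push_cast; ring
    rw [e7, Complex.norm_real, Real.norm_eq_abs] at h6
    have e8 : ∑ a ∈ A, ∑ b ∈ B, (truncHeight (r * a * b) ⌊Λ * Real.log N⌋₊ : ℝ) -
        (δ * (2 / Real.log (16 / 9)) + (1 - δ) * Λ) * (A.card * B.card) * Real.log N =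
        (∑ a ∈ A, ∑ b ∈ B, (truncHeight (r * a * b) ⌊Λ * Real.log N⌋₊ : ℝ) / Real.log N -
          (δ * (2 / Real.log (16 / 9)) + (1 - δ) * Λ) * (A.card * B.card)) * Real.log N := by
      simp_rw [← sum_div]
      field_simp
    rw [e8, abs_mul, abs_of_pos hL]
    exact mul_le_mul_of_nonneg_right h6 hL.le

end Pool.Agent.Results.MP_2b866c_nt.HeightsAtProducts
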