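import Pool.Agent.X17.MQ.Dat
import Pool.Agent.X17.MD.Dig

set_option autoImplicit false

/-!
# Heights at integers with missing or random digits

Let `b ≥ 3` be odd, and let `n` be a random natural number with `L` independent digits in base `b`, where for
a fixed odd `Δ` at each place some two digits with difference `Δ` have probability at least `c > 0`.

1. The parities of the first `t` terms of the trajectory of `n` are, for `t` up to a constant times
`L / log L`, almost independent fair coins: the total variation distance is `O (exp (- δ L / t))`.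
2. With `W = √L / (log L) ^ 18`, outside an event of probability `o(1)`, the heights of all the odd integers
whose trajectories pass, at any time, within distance `exp W` of one of `n, 3 n, ..., 3 ^ i n, ...`, `i ≤ W`,
determine each other; for instance all the odd integers within `exp W` of `n` have the same height.
3. So the same holds for almost all the integers with `L` digits, all in a set `D` which contains an even
and an odd digit, for example for almost all sums of distinct powers of three.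
-/

namespace Pool.Agent.Results.MP_2b866c_nt.HeightsMissingDigits

open Filter Topology Pool.Agent
open Pool.Agent.Y967.CM
open Pool.Agent.H499R2.ND (Tn IsHt)
open Pool.Agent.H499R2.HL (H ht_H odn_add)
open Pool.Agent.H499R2.LT (odn)

/-- `C(m) = (3m+1)/2^e(m)`, `2^e(m)` the largest power of `2` dividing `3m+1` -/
def C (m : ℕ) : ℕ := (3 * m + 1) / 2 ^ padicValNat 2 (3 * m + 1)

/-- the height `h(m)`, the least `k ≥ 1` with `C^k(m) = 1`, and `⊤ = ∞` if there is none -/
noncomputable def height (m : ℕ) : ℕ∞ := sInf {k : ℕ∞ | ∃ j : ℕ, 1 ≤ j ∧ C^[j] m = 1 ∧ k = j}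

/-- The `3x+1` function, with the divisions by `2` one at a time. -/
def T (n : ℕ) : ℕ := if n % 2 = 0 then n / 2 else (3 * n + 1) / 2

/-- The number of odd integers among `z, T z, ..., T^(k-1) z`. -/
def odds (k z : ℕ) : ℕ := ((Finset.range k).filter fun j => T^[j] z % 2 = 1).card

/-- The heights near the trajectories of `n` are rigid: if `z` and `z'` are odd and the term of index `k` of the
trajectory of `z` is within `exp w` of `3 ^ i n` and the term of index `k'` of the trajectory of `z'` is within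
`exp w` of `3 ^ i' n`, where `i, i' ≤ w`, then `h z + i - odds k z = h z' + i' - odds k' z'`; in
particular both heights are finite or both are infinite. -/
def Rigid (w : ℝ) (n : ℕ) : Prop :=
  ∀ z z' k k' i i' : ℕ, Odd z → Odd z' → (i : ℝ) ≤ w → (i' : ℝ) ≤ w →
    |((T^[k] z : ℕ) : ℝ) - 3 ^ i * n| ≤ Real.exp w → |((T^[k'] z' : ℕ) : ℝ) - 3 ^ i' * n| ≤ Real.exp w →
    height z + i + odds k' z' = height z' + i' + odds k z

/-- The first parities of the trajectory of `n` are given by `w`. -/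
def Parities {t : ℕ} (w : Fin t → Bool) (n : ℕ) : Prop := ∀ i : Fin t, Odd (T^[i] n) ↔ w i = true

/-- The integer with the digits `d 0, d 1, …, d (L - 1)` in base `b`. -/
def number (b : ℕ) {L : ℕ} (d : Fin L → Fin b) : ℕ := ∑ j : Fin L, (d j : ℕ) * b ^ (j : ℕ)

open Classical in
/-- The probability that the random integer with `L` independent digits in base `b`, where the digit at
the place `j` is `x` with probability `ν j x`, has the property `P`. -/
noncomputable def Prob {b L : ℕ} (ν : Fin L → Fin b → ℝ) (P : ℕ → Prop) : ℝ :=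
  ∑ d : Fin L → Fin b, if P (number b d) then ∏ j, ν j (d j) else 0

/-- The `ν j` are probability laws on the digits, and for each place `j` there are two digits `e` and
`e' = e + Δ` whose probabilities are at least `c`. -/
structure DigitLaws (b Δ : ℕ) (c : ℝ) {L : ℕ} (ν : Fin L → Fin b → ℝ) : Prop where
  nonneg : ∀ j x, 0 ≤ ν j x
  one : ∀ j, ∑ x, ν j x = 1
  two : ∀ j, ∃ e e' : Fin b, (e' : ℕ) = e + Δ ∧ c ≤ ν j e ∧ c ≤ ν j e'

/-- The integers `n < b ^ L` whose `L` digits in base `b` (with leading zeros) are all in `D`. -/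
def DigitsIn (b : ℕ) (D : Finset ℕ) (L : ℕ) : Set ℕ := {n | n < b ^ L ∧ ∀ j < L, n / b ^ j % b ∈ D}

/-- The range `√L / (log L) ^ 18`. -/
noncomputable def W (L : ℕ) : ℝ := √ (L : ℝ) / Real.log L ^ 18

/-! ### Heights -/

theorem T_eq : T = Tn := rfl

theorem odds_eq (k z : ℕ) : odds k z = odn k z := rfl

theorem height_eq {m h : ℕ} (hh : IsHt m h) : height m = h := by
  unfold height
  apply le_antisymm
  · exact sInf_le ⟨h, hh.1, hh.2.1, rfl⟩
  · refine le_sInf ?_
    rintro k ⟨j, hj, hj1, rfl⟩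
    have : h ≤ j := by
      by_contra hlt
      exact hh.2.2 j hj (by omega) hj1
    exact_mod_cast this

theorem exists_isHt {m j : ℕ} (hj : 1 ≤ j) (h : C^[j] m = 1) : ∃ h, IsHt m h := by
  classical
  have hex : ∃ k, 1 ≤ k ∧ C^[k] m = 1 := ⟨j, hj, h⟩
  refine ⟨Nat.find hex, (Nat.find_spec hex).1, (Nat.find_spec hex).2, fun k hk hlt hk1 => ?_⟩
  exact Nat.find_min hex hlt ⟨hk, hk1⟩

theorem height_top {m : ℕ} (hh : ¬ ∃ h, IsHt m h) : height m = ⊤ := by
  unfold height
  have : {k : ℕ∞ | ∃ j : ℕ, 1 ≤ j ∧ C^[j] m = 1 ∧ k = j} = ∅ := by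
    rw [Set.eq_empty_iff_forall_notMem]
    rintro k ⟨j, hj, hj1, _⟩
    exact hh (exists_isHt hj hj1)
  rw [this, sInf_empty]

/-- What the data give for one odd integer. -/
theorem pass {κ : ℝ} {n N : ℕ} (hD : Dat κ (fun _ => n) N) (hk : 0 ≤ kap N) {z k i : ℕ} (hi : (i : ℝ) ≤ kap N)
    (hz : |(((Tn^[k] z : ℕ) : ℤ) - 3 ^ i * (n : ℤ) : ℝ)| ≤ Real.exp (kap N)) :
    z ≠ 1 ∧ (∀ m, H m z ↔ ∃ M, m = k + M ∧ H M n) ∧ ∀ M, H M n → odn (k + M) z + i = odn k z + odn M n := by
  obtain ⟨t, -, hmerge, hx2, hz2, -, hod, h1, h2⟩ := dat_pass hD hk hi hz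
  have hx4 : 4 ≤ n := by
    obtain ⟨t', -, hs, -⟩ := hD
    have h3 := hs 0 (by rw [Nat.cast_zero]; exact hk)
    have h4 : (1 : ℝ) ≤ 2 ^ t' := one_le_pow₀ (by norm_num)
    have h5 : 1 ≤ Real.exp (kap N) := Real.one_le_exp hk
    have h6 : (4 : ℝ) ≤ n := by
      rw [pow_zero, one_mul] at h3
      linarith
    exact_mod_cast h6
  refine ⟨?_, ?_, ?_⟩
  · rintro rfl
    have := one_orbit k
    rcases Nat.eq_zero_or_pos t with h0 | h0
    · subst h0
      rw [Function.iterate_zero, id_eq, id_eq] at hmerge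
      omega
    · have : 2 ^ 1 ≤ 2 ^ t := Nat.pow_le_pow_right (by norm_num) h0
      omega
  · intro m
    rw [h1]
    constructor
    · rintro ⟨j, rfl, hj⟩
      exact ⟨t + j, rfl, (h2 _).2 ⟨j, rfl, hj⟩⟩
    · rintro ⟨M, rfl, hM⟩
      obtain ⟨j, rfl, hj⟩ := (h2 _).1 hM
      exact ⟨j, rfl, hj⟩
  · intro M hM
    obtain ⟨j, rfl, hj⟩ := (h2 _).1 hM
    rw [odn_add, odn_add, odn_add t j n, hmerge]
    omega

theorem rigid_of {κ : ℝ} {n N : ℕ} (hD : Dat κ (fun _ => n) N) {w : ℝ} (hw : 0 ≤ w) (hwk : w ≤ kap N) :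
    Rigid w n := by
  intro z z' k k' i i' hzo hzo' hi hi' hz hz'
  have hk : 0 ≤ kap N := hw.trans hwk
  have hexp : Real.exp w ≤ Real.exp (kap N) := Real.exp_le_exp.2 hwk
  have e : ∀ k z i : ℕ, |((T^[k] z : ℕ) : ℝ) - 3 ^ i * n| ≤ Real.exp w →
      |(((Tn^[k] z : ℕ) : ℤ) - 3 ^ i * (n : ℤ) : ℝ)| ≤ Real.exp (kap N) := by
    intro k z i h
    rw [T_eq] at h
    refine le_trans (le_of_eq ?_) (h.trans hexp)
    congr 1
  obtain ⟨hz1, h1, h2⟩ := pass hD hk (hi.trans hwk) (e k z i hz)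
  obtain ⟨hz1', h1', h2'⟩ := pass hD hk (hi'.trans hwk) (e k' z' i' hz')
  have ho := Nat.odd_iff.1 hzo
  have ho' := Nat.odd_iff.1 hzo'
  by_cases hX : ∃ M, H M n
  · obtain ⟨M, hM⟩ := hX
    have e1 : IsHt z (odn (k + M) z) := (ht_H ho hz1 _).2 ⟨_, (h1 _).2 ⟨M, rfl, hM⟩, rfl⟩
    have e2 : IsHt z' (odn (k' + M) z') := (ht_H ho' hz1' _).2 ⟨_, (h1' _).2 ⟨M, rfl, hM⟩, rfl⟩
    rw [height_eq e1, height_eq e2, odds_eq, odds_eq]
    have h3 := h2 M hM
    have h4 := h2' M hM
    have h5 : odn (k + M) z + i + odn k' z' = odn (k' + M) z' + i' + odn k z := by omega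
    exact_mod_cast h5
  · have g1 : ¬ ∃ h, IsHt z h := by
      rintro ⟨h, hh⟩
      obtain ⟨m, hm, -⟩ := (ht_H ho hz1 h).1 hh
      obtain ⟨M, -, hM⟩ := (h1 m).1 hm
      exact hX ⟨M, hM⟩
    have g2 : ¬ ∃ h, IsHt z' h := by
      rintro ⟨h, hh⟩
      obtain ⟨m, hm, -⟩ := (ht_H ho' hz1' h).1 hh
      obtain ⟨M, -, hM⟩ := (h1' m).1 hm
      exact hX ⟨M, hM⟩
    rw [height_top g1, height_top g2, top_add, top_add, top_add, top_add]

/-! ### Probabilities -/

theorem prob_eq {b L : ℕ} (ν : Fin L → Fin b → ℝ) (P : ℕ → Prop) : Prob ν P = X17.MD.prob ν P := by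
  classical
  rw [X17.MD.prob_eq P ((Finset.univ : Finset (Fin L → Fin b)).filter (fun d => P (X17.MD.num b d)))
    (fun d => by simp), Finset.sum_filter]
  unfold Prob
  apply Finset.sum_congr rfl
  intro d _
  have e : number b d = X17.MD.num b d := rfl
  rw [e]
  by_cases h : P (X17.MD.num b d)
  · rw [if_pos h, if_pos h]; rfl
  · rw [if_neg h, if_neg h]

theorem laws {b Δ : ℕ} {c c' : ℝ} (hc : c' ≤ c) {L : ℕ} {ν : Fin L → Fin b → ℝ} (h : DigitLaws b Δ c ν) :
    X17.MD.Law b Δ c' ν :=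
  ⟨h.nonneg, h.one, fun j => by
    obtain ⟨e, e', h1, h2, h3⟩ := h.two j
    exact ⟨e, e', h1, hc.trans h2, hc.trans h3⟩⟩

theorem T_cast (k n : ℕ) : X17.MZ.T^[k] (n : ℤ) = ((T^[k] n : ℕ) : ℤ) := by
  induction k with
  | zero => rfl
  | succ k ih =>
    rw [Function.iterate_succ_apply', Function.iterate_succ_apply', ih]
    generalize T^[k] n = x
    unfold X17.MZ.T T
    by_cases h : x % 2 = 0
    · rw [if_pos h, if_pos (by omega)]
      omega
    · rw [if_neg h, if_neg (by omega)]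
      omega

theorem parities_iff {t : ℕ} (w : Fin t → Bool) (n : ℕ) : Parities w n ↔ X17.MZ.pv t (n : ℤ) = w := by
  unfold Parities
  constructor
  · intro h
    funext i
    have h1 := h i
    unfold X17.MZ.pv
    rw [T_cast]
    rw [Nat.odd_iff] at h1
    by_cases h2 : T^[(i : ℕ)] n % 2 = 1
    · rw [decide_eq_true (by omega), h1.1 h2]
    · rw [decide_eq_false (by omega)]
      have h3 : ¬ w i = true := fun h3 => h2 (h1.2 h3)
      simpa using h3
  · intro h i
    rw [← h]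
    unfold X17.MZ.pv
    rw [T_cast, Nat.odd_iff, decide_eq_true_eq]
    omega

/-- the estimate for the probabilities -/
theorem rigid_prob {b : ℕ} (hbo : b % 2 = 1) (hb3 : 3 ≤ b) {c : ℝ} (hc : 0 < c) {ε : ℝ} (hε : 0 < ε) :
    ∃ L₀ : ℕ, ∀ L ≥ L₀, ∀ (Δ : ℕ) (ν : Fin L → Fin b → ℝ), Δ % 2 = 1 → X17.MD.Law b Δ (min c 1) ν →
      X17.MD.prob ν (fun n => ¬ Rigid (W L) n) ≤ ε := by
  obtain ⟨L1, h1⟩ := X17.MQ.dat_prob hbo hb3 (c := min c 1) (lt_min hc one_pos) (min_le_right _ _) hε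
  obtain ⟨L2, h2⟩ := eventually_atTop.1 ((X17.MQ.choose_t (κ := 1) one_pos 0).and
    ((Real.tendsto_log_atTop.comp tendsto_natCast_atTop_atTop).eventually_ge_atTop (0 : ℝ)))
  refine ⟨max L1 L2, fun L hL Δ ν hΔ hl => ?_⟩
  obtain ⟨⟨-, h3, -⟩, h4⟩ := h2 L ((le_max_right _ _).trans hL)
  refine le_trans (X17.MD.prob_mono (P := fun n => ¬ Rigid (W L) n)
    (Q := fun m => ¬ Dat 1 (fun _ => m) (X17.MQ.NL L)) hl.nonneg (fun n hn hD => hn ?_))
    (h1 L ((le_max_left _ _).trans hL) Δ ν hΔ hl)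
  refine rigid_of hD ?_ h3
  unfold W
  have : 0 ≤ Real.log (L : ℝ) := Real.log_natCast_nonneg _
  positivity

/-- **Main theorem.** Let `b ≥ 3` be odd.
1. For every `c > 0` there are `δ, K > 0` such that for `1 ≤ t ≤ δ L / log L`, all odd `Δ` and all laws of
`L` digits which give at each place probabilities at least `c` to two digits with difference `Δ`, the
probabilities of the `2 ^ t` patterns of the parities of the first `t` terms of the trajectory of `n` differ
from `1 / 2 ^ t` by at most `K exp (- δ L / t)` in total.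
2. For all `c, ε > 0` and `L ≥ L₀`, for all these laws the probability that the heights near `n` are not
rigid, with the range `W L = √L / (log L) ^ 18`, is at most `ε`.
3. Let `D` be a set of digits which contains an even and an odd digit. The heights near all but `o (|D| ^ L)` of
the `|D| ^ L` integers with `L` digits, all in `D`, are rigid, with the range `W L`. -/
theorem result (b : ℕ) (hb : Odd b) (hb3 : 3 ≤ b) :
    (∀ c : ℝ, 0 < c → ∃ δ K : ℝ, 0 < δ ∧ 0 < K ∧ ∀ (L t Δ : ℕ) (ν : Fin L → Fin b → ℝ),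
      1 ≤ t → (t : ℝ) * Real.log L ≤ δ * L → Odd Δ → DigitLaws b Δ c ν →
        ∑ w : Fin t → Bool, |Prob ν (Parities w) - 1 / 2 ^ t| ≤ K * Real.exp (-(δ * (L / t)))) ∧
    (∀ c ε : ℝ, 0 < c → 0 < ε → ∃ L₀ : ℕ, ∀ L ≥ L₀, ∀ (Δ : ℕ) (ν : Fin L → Fin b → ℝ),
      Odd Δ → DigitLaws b Δ c ν → Prob ν (fun n => ¬ Rigid (W L) n) ≤ ε) ∧
    (∀ D : Finset ℕ, (∀ x ∈ D, x < b) → (∃ x ∈ D, Even x) → (∃ x ∈ D, Odd x) →
      Tendsto (fun L : ℕ => ({n : ℕ | n ∈ DigitsIn b D L ∧ ¬ Rigid (W L) n}.ncard : ℝ) / (D.card : ℝ) ^ L)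
        atTop (𝓝 0)) := by
  have hbo : b % 2 = 1 := Nat.odd_iff.1 hb
  refine ⟨?_, ?_, ?_⟩
  · intro c hc
    obtain ⟨δ, K, hδ, hK, h⟩ := X17.MQ.dist_bd hbo hb3 (c := min c 1) (lt_min hc one_pos) (min_le_right _ _)
    refine ⟨δ, K, hδ, hK, fun L t Δ ν ht htL hΔ hl => ?_⟩
    refine le_trans (le_of_eq ?_) (h L t Δ ν ht htL (Nat.odd_iff.1 hΔ) (laws (min_le_left _ _) hl))
    rw [← X17.MQ.parities]
    apply Finset.sum_congr rfl
    intro w _
    rw [prob_eq]
    have e : (Parities w) = fun n : ℕ => X17.MZ.pv t (n : ℤ) = w := by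
      funext n
      exact propext (parities_iff w n)
    rw [e]
  · intro c ε hc hε
    obtain ⟨L₀, h⟩ := rigid_prob hbo hb3 hc hε
    refine ⟨L₀, fun L hL Δ ν hΔ hl => ?_⟩
    rw [prob_eq]
    exact h L hL Δ ν (Nat.odd_iff.1 hΔ) (laws (min_le_left _ _) hl)
  · intro D hD he ho
    obtain ⟨hcard, x, y, hx, hy, hxy, hpar⟩ := X17.MD.exists_pair (D := D)
      (by obtain ⟨x, h1, h2⟩ := he; exact ⟨x, h1, Nat.even_iff.1 h2⟩)
      (by obtain ⟨x, h1, h2⟩ := ho; exact ⟨x, h1, Nat.odd_iff.1 h2⟩)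
    have hc0 : (0 : ℝ) < D.card := by exact_mod_cast (by omega : 0 < D.card)
    have hmin : min (1 / (D.card : ℝ)) 1 = 1 / (D.card : ℝ) := by
      apply min_eq_left
      rw [div_le_one hc0]
      exact_mod_cast (by omega : 1 ≤ D.card)
    have hlaw : ∀ L, X17.MD.Law b (y - x) (min (1 / (D.card : ℝ)) 1) (X17.MD.unif b D L) := fun L => by
      rw [hmin]; exact X17.MD.unif_law hD hx hy hxy L
    rw [Metric.tendsto_nhds]
    intro ε hε
    obtain ⟨L₀, h⟩ := rigid_prob hbo hb3 (c := 1 / (D.card : ℝ)) (by positivity) (ε := ε / 2) (by positivity)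
    filter_upwards [eventually_ge_atTop L₀] with L hL
    have hp : (0 : ℝ) < (D.card : ℝ) ^ L := by positivity
    rw [Real.dist_eq, sub_zero, abs_of_nonneg (by positivity), div_lt_iff₀ hp]
    have e : {n : ℕ | n ∈ DigitsIn b D L ∧ ¬ Rigid (W L) n} =
        {n : ℕ | n < b ^ L ∧ (∀ j < L, n / b ^ j % b ∈ D) ∧ ¬ Rigid (W L) n} := by
      ext n; simp only [DigitsIn, Set.mem_ofPred_eq, and_assoc]
    rw [e]
    refine lt_of_le_of_lt (X17.MD.count_le (by omega) D hD ⟨x, hx⟩ L (fun n => ¬ Rigid (W L) n)) ?_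
    have h1 := h L hL (y - x) _ hpar (hlaw L)
    nlinarith

end Pool.Agent.Results.MP_2b866c_nt.HeightsMissingDigits
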